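import Pool.Agent.Y968.MB.Defs

/-!
# Packing bounds for the stars of a broadcast tree
-/

set_option autoImplicit false

namespace Pool.Agent.Y968.MB

open MeasureTheory Metric Set Module Filter Topology
open scoped ENNReal

theorem kissing_bdd (d : ℕ) : BddAbove {k | ∃ y : Fin k → EuclideanSpace ℝ (Fin d),
    (∀ i, ‖y i‖ = 1) ∧ ∀ i j, i ≠ j → 1 ≤ ‖y i - y j‖} := by
  classical
  refine ⟨5 ^ finrank ℝ (EuclideanSpace ℝ (Fin d)), ?_⟩
  rintro k ⟨y, h1, h2⟩
  have hinj : Function.Injective y := by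
    intro i j hij
    by_contra hne
    have := h2 i j hne
    rw [hij, sub_self, norm_zero] at this
    linarith
  have h := Besicovitch.card_le_of_separated (E := EuclideanSpace ℝ (Fin d))
    (Finset.univ.image y) (fun c hc => by
      obtain ⟨i, _, rfl⟩ := Finset.mem_image.1 hc
      rw [h1]
      norm_num) (fun c hc e he hne => by
      obtain ⟨i, _, rfl⟩ := Finset.mem_image.1 hc
      obtain ⟨j, _, rfl⟩ := Finset.mem_image.1 he
      exact h2 i j (fun hij => hne (congrArg y hij)))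
  rwa [Finset.card_image_of_injective _ hinj, Finset.card_univ, Fintype.card_fin] at h

theorem kissing_attained (d : ℕ) : ∃ y : Fin (kissing d) → EuclideanSpace ℝ (Fin d),
    (∀ i, ‖y i‖ = 1) ∧ ∀ i j, i ≠ j → 1 ≤ ‖y i - y j‖ := by
  have h := Nat.sSup_mem (s := {k | ∃ y : Fin k → EuclideanSpace ℝ (Fin d),
    (∀ i, ‖y i‖ = 1) ∧ ∀ i j, i ≠ j → 1 ≤ ‖y i - y j‖})
    ⟨0, fun i => i.elim0, fun i => i.elim0, fun i => i.elim0⟩ (kissing_bdd d)
  exact h

theorem le_kissing {d k : ℕ} (y : Fin k → EuclideanSpace ℝ (Fin d)) (h1 : ∀ i, ‖y i‖ = 1)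
    (h2 : ∀ i j, i ≠ j → 1 ≤ ‖y i - y j‖) : k ≤ kissing d :=
  le_csSup (kissing_bdd d) ⟨y, h1, h2⟩

theorem pack_near (d : ℕ) : ∃ θ : ℝ, 0 < θ ∧ θ < 1 ∧
    ∀ (k : ℕ) (y : Fin k → EuclideanSpace ℝ (Fin d)), (∀ i, θ < ‖y i‖ ∧ ‖y i‖ ≤ 1) →
      (∀ i j, i ≠ j → θ < ‖y i - y j‖) → k ≤ kissing d := by
  by_contra hcon
  push Not at hcon
  set K := kissing d + 1 with hK
  have hθ : ∀ m : ℕ, 0 < 1 - 1 / ((m : ℝ) + 2) ∧ 1 - 1 / ((m : ℝ) + 2) < 1 := by
    intro m
    have h0 : (0 : ℝ) ≤ m := Nat.cast_nonneg m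
    have h1 : 0 < 1 / ((m : ℝ) + 2) := by positivity
    have h2 : 1 / ((m : ℝ) + 2) < 1 := by
      rw [div_lt_one (by positivity)]
      linarith
    constructor <;> linarith
  have h : ∀ m : ℕ, ∃ y : Fin K → EuclideanSpace ℝ (Fin d),
      (∀ i, 1 - 1 / ((m : ℝ) + 2) < ‖y i‖ ∧ ‖y i‖ ≤ 1) ∧
      ∀ i j, i ≠ j → 1 - 1 / ((m : ℝ) + 2) < ‖y i - y j‖ := by
    intro m
    obtain ⟨k, y, h1, h2, h3⟩ := hcon _ (hθ m).1 (hθ m).2
    refine ⟨fun i => y (Fin.castLE h3 i), fun i => h1 _, fun i j hij => h2 _ _ ?_⟩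
    intro he
    exact hij (Fin.castLE_injective h3 he)
  choose y hy1 hy2 using h
  have hcomp : IsCompact (Set.pi Set.univ fun _ : Fin K =>
      closedBall (0 : EuclideanSpace ℝ (Fin d)) 1) :=
    isCompact_univ_pi fun _ => isCompact_closedBall 0 1
  obtain ⟨a, -, φ, hφ, hlim⟩ := hcomp.tendsto_subseq (x := y) (fun m i _ => by
    rw [mem_closedBall_zero_iff]
    exact (hy1 m i).2)
  have ht : Tendsto (fun m : ℕ => 1 - 1 / ((φ m : ℝ) + 2)) atTop (𝓝 1) := by
    have h1 : Tendsto (fun m : ℕ => (φ m : ℝ) + 2) atTop atTop :=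
      tendsto_atTop_add_const_right _ _ (tendsto_natCast_atTop_atTop.comp hφ.tendsto_atTop)
    have h2 := (tendsto_const_nhds (x := (1 : ℝ))).sub (h1.inv_tendsto_atTop)
    simpa using h2
  have hi : ∀ i, Tendsto (fun m => y (φ m) i) atTop (𝓝 (a i)) := fun i =>
    (tendsto_pi_nhds.1 hlim) i
  have ha1 : ∀ i, ‖a i‖ = 1 := by
    intro i
    apply le_antisymm
    · exact le_of_tendsto (hi i).norm (Eventually.of_forall fun m => (hy1 (φ m) i).2)
    · exact le_of_tendsto_of_tendsto' ht (hi i).norm fun m => (hy1 (φ m) i).1.le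
  have ha2 : ∀ i j, i ≠ j → 1 ≤ ‖a i - a j‖ := by
    intro i j hij
    exact le_of_tendsto_of_tendsto' ht ((hi i).sub (hi j)).norm fun m => (hy2 (φ m) i j hij).le
  have := le_kissing a ha1 ha2
  omega

/-- the volume bound -/
theorem card_le_vol {d : ℕ} (s : Finset (EuclideanSpace ℝ (Fin d))) {r L : ℝ} (hL : 0 < L)
    (hLr : L < r) (hs : ∀ c ∈ s, ‖c‖ ≤ r) (h : ∀ c ∈ s, ∀ e ∈ s, c ≠ e → L ≤ ‖c - e‖) :
    (s.card : ℝ) ≤ (3 * r / L) ^ d := by
  borelize (EuclideanSpace ℝ (Fin d))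
  let μ : Measure (EuclideanSpace ℝ (Fin d)) := Measure.addHaar
  let δ : ℝ := L / 2
  let ρ : ℝ := 3 * r / 2
  have hδ : 0 < δ := by positivity
  have hr : 0 < r := hL.trans hLr
  have ρpos : 0 < ρ := by positivity
  set A := ⋃ c ∈ s, ball (c : EuclideanSpace ℝ (Fin d)) δ with hA
  have D : Set.Pairwise (s : Set (EuclideanSpace ℝ (Fin d)))
      (Function.onFun Disjoint fun c => ball (c : EuclideanSpace ℝ (Fin d)) δ) := by
    rintro c hc e he hce
    apply ball_disjoint_ball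
    rw [dist_eq_norm]
    have := h c hc e he hce
    simp only [δ]
    linarith
  have A_subset : A ⊆ ball (0 : EuclideanSpace ℝ (Fin d)) ρ := by
    refine iUnion₂_subset fun x hx => ?_
    apply ball_subset_ball'
    rw [dist_zero_right]
    have := hs x hx
    simp only [δ, ρ]
    linarith
  have I : (s.card : ℝ≥0∞) * ENNReal.ofReal (δ ^ finrank ℝ (EuclideanSpace ℝ (Fin d))) *
      μ (ball 0 1) ≤
      ENNReal.ofReal (ρ ^ finrank ℝ (EuclideanSpace ℝ (Fin d))) * μ (ball 0 1) :=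
    calc
      (s.card : ℝ≥0∞) * ENNReal.ofReal (δ ^ finrank ℝ (EuclideanSpace ℝ (Fin d))) *
          μ (ball 0 1) = μ A := by
        rw [hA, measure_biUnion_finset D fun c _ => measurableSet_ball]
        simp only [μ.addHaar_ball_of_pos _ hδ]
        simp only [Finset.sum_const, nsmul_eq_mul, mul_assoc]
      _ ≤ μ (ball (0 : EuclideanSpace ℝ (Fin d)) ρ) := measure_mono A_subset
      _ = ENNReal.ofReal (ρ ^ finrank ℝ (EuclideanSpace ℝ (Fin d))) * μ (ball 0 1) := by
        simp only [μ.addHaar_ball_of_pos _ ρpos]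
  have J : (s.card : ℝ≥0∞) * ENNReal.ofReal (δ ^ finrank ℝ (EuclideanSpace ℝ (Fin d))) ≤
      ENNReal.ofReal (ρ ^ finrank ℝ (EuclideanSpace ℝ (Fin d))) :=
    (ENNReal.mul_le_mul_iff_left (measure_ball_pos _ _ zero_lt_one).ne' measure_ball_lt_top.ne).1 I
  rw [finrank_euclideanSpace_fin] at J
  have K : (s.card : ℝ) * δ ^ d ≤ ρ ^ d := by
    have := ENNReal.toReal_le_of_le_ofReal (pow_nonneg ρpos.le _) J
    rwa [ENNReal.toReal_mul, ENNReal.toReal_natCast, ENNReal.toReal_ofReal (by positivity)] at this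
  have h1 : 3 * r / L = ρ / δ := by
    simp only [ρ, δ]
    field_simp
  rw [h1, div_pow, le_div_iff₀ (by positivity)]
  exact K

/-- the points of a star -/
theorem star_bound {V : Type} {d : ℕ} {θ : ℝ}
    (hθ : ∀ (k : ℕ) (y : Fin k → EuclideanSpace ℝ (Fin d)), (∀ i, θ < ‖y i‖ ∧ ‖y i‖ ≤ 1) →
      (∀ i j, i ≠ j → θ < ‖y i - y j‖) → k ≤ kissing d)
    (S : Finset V) (x : V → EuclideanSpace ℝ (Fin d)) (u : V) {r L : ℝ} (hL : 0 < L)
    (hr1 : 0 ≤ r) (hr : ∀ v ∈ S, L < ‖x v - x u‖ ∧ ‖x v - x u‖ ≤ r)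
    (hS : ∀ v ∈ S, ∀ v' ∈ S, v ≠ v' → L < ‖x v - x v'‖) :
    (S.card : ℝ) ≤ (if L < r then (kissing d : ℝ) else 0) +
      (if L < θ * r then (3 * r / L) ^ d else 0) := by
  classical
  by_cases h1 : L < r
  · have hr0 : 0 < r := hL.trans h1
    rw [if_pos h1]
    by_cases h2 : L < θ * r
    · rw [if_pos h2]
      have hinj : Set.InjOn (fun v => x v - x u) (S : Set V) := by
        intro v hv v' hv' he
        by_contra hne
        have := hS v hv v' hv' hne
        have he' : x v - x u = x v' - x u := he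
        rw [sub_left_inj.1 he', sub_self, norm_zero] at this
        linarith
      have h3 := card_le_vol (S.image fun v => x v - x u) hL h1 (fun c hc => by
        obtain ⟨v, hv, rfl⟩ := Finset.mem_image.1 hc
        exact (hr v hv).2) (fun c hc e he hne => by
        obtain ⟨v, hv, rfl⟩ := Finset.mem_image.1 hc
        obtain ⟨v', hv', rfl⟩ := Finset.mem_image.1 he
        rw [sub_sub_sub_cancel_right]
        exact (hS v hv v' hv' (fun h => hne (by rw [h]))).le)
      rw [Finset.card_image_of_injOn hinj] at h3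
      have h4 : (0 : ℝ) ≤ kissing d := Nat.cast_nonneg _
      linarith
    · rw [if_neg h2, add_zero]
      have h3 : θ ≤ L / r := by
        rw [le_div_iff₀ hr0]
        exact not_lt.1 h2
      have hn : ∀ z : EuclideanSpace ℝ (Fin d), ‖(1 / r : ℝ) • z‖ = ‖z‖ / r := by
        intro z
        rw [norm_smul, Real.norm_eq_abs, abs_of_pos (by positivity)]
        ring
      have h4 := hθ S.card (fun i => (1 / r : ℝ) • (x (S.equivFin.symm i) - x u)) (fun i => by
        have h5 := hr _ (S.equivFin.symm i).2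
        rw [hn]
        constructor
        · exact h3.trans_lt ((div_lt_div_iff_of_pos_right hr0).2 h5.1)
        · rw [div_le_one hr0]
          exact h5.2) (fun i j hij => by
        have h5 := hS _ (S.equivFin.symm i).2 _ (S.equivFin.symm j).2 (fun h => hij
          (S.equivFin.symm.injective (Subtype.ext h)))
        rw [← smul_sub, sub_sub_sub_cancel_right, hn]
        exact h3.trans_lt ((div_lt_div_iff_of_pos_right hr0).2 h5))
      exact_mod_cast h4
  · have h2 : S = ∅ := by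
      rw [Finset.eq_empty_iff_forall_notMem]
      intro v hv
      have := hr v hv
      exact h1 (this.1.trans_le this.2)
    rw [h2, Finset.card_empty, Nat.cast_zero, if_neg h1, zero_add]
    split_ifs with h3
    · positivity
    · exact le_refl _

end Pool.Agent.Y968.MB
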