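import Pool.Agent.Y968.MB.Tree
import Pool.Agent.Y968.MB.Pack

/-!
# The lower bound
-/

set_option autoImplicit false

namespace Pool.Agent.Y968.MB

open Set Filter Topology
open scoped ENNReal

/-- an optimal broadcast tree exists -/
theorem exists_opt {V : Type} [Fintype V] {d : ℕ} (x : V → EuclideanSpace ℝ (Fin d)) (α : ℝ)
    (s : V) : ∃ q, IsOpt x α s q := by
  classical
  obtain ⟨q, hq, hmin⟩ := Finset.exists_min_image
    (Finset.univ.filter fun q : V → V => Arb s q) (energy x α s)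
    ⟨fun _ => s, by
      rw [Finset.mem_filter]
      exact ⟨Finset.mem_univ _, rfl, fun v => ⟨1, rfl⟩⟩⟩
  refine ⟨q, (Finset.mem_filter.1 hq).2, fun q' hq' => hmin q' ?_⟩
  exact Finset.mem_filter.2 ⟨Finset.mem_univ _, hq'⟩

theorem arb_ne {V : Type} {s : V} {q : V → V} (hq : Arb s q) {v : V} (hv : v ≠ s) : q v ≠ v := by
  intro h
  obtain ⟨k, hk⟩ := hq.2 v
  have h1 : ∀ k : ℕ, q^[k] v = v := by
    intro k
    induction k with
    | zero => rfl
    | succ k ih => rw [Function.iterate_succ_apply, h, ih]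
  rw [h1] at hk
  exact hv hk

theorem energy_nonneg {V : Type} [Fintype V] {d : ℕ} (x : V → EuclideanSpace ℝ (Fin d)) (α : ℝ)
    (s : V) (p : V → V) : 0 ≤ energy x α s p := by
  classical
  unfold energy
  refine Finset.sum_nonneg fun u _ => Real.iSup_nonneg fun v => ?_
  split_ifs <;> positivity

open Classical in
/-- the contribution of a vertex to the energy -/
noncomputable def trm {V : Type} [Fintype V] {d : ℕ} (x : V → EuclideanSpace ℝ (Fin d)) (α : ℝ)
    (s : V) (p : V → V) (u : V) : ℝ :=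
  ⨆ v, if v ≠ s ∧ p v = u then ‖x u - x v‖ ^ α else 0

theorem energy_eq {V : Type} [Fintype V] {d : ℕ} (x : V → EuclideanSpace ℝ (Fin d)) (α : ℝ)
    (s : V) (p : V → V) : energy x α s p = ∑ u, trm x α s p u := rfl

theorem trm_nonneg {V : Type} [Fintype V] {d : ℕ} (x : V → EuclideanSpace ℝ (Fin d)) (α : ℝ)
    (s : V) (p : V → V) (u : V) : 0 ≤ trm x α s p u := by
  classical
  refine Real.iSup_nonneg fun v => ?_
  split_ifs <;> positivity

theorem le_trm {V : Type} [Fintype V] {d : ℕ} (x : V → EuclideanSpace ℝ (Fin d)) (α : ℝ)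
    {s : V} {p : V → V} {v : V} (hv : v ≠ s) :
    ‖x (p v) - x v‖ ^ α ≤ trm x α s p (p v) := by
  classical
  have h := le_ciSup (f := fun w => if w ≠ s ∧ p w = p v then ‖x (p v) - x w‖ ^ α else 0)
    (Set.finite_range _).bddAbove v
  rw [if_pos ⟨hv, rfl⟩] at h
  exact h

theorem trm_le {V : Type} [Fintype V] {d : ℕ} (x : V → EuclideanSpace ℝ (Fin d)) (α : ℝ)
    {s : V} {p : V → V} {u : V} {B : ℝ} (hB : 0 ≤ B)
    (h : ∀ v, v ≠ s → p v = u → ‖x u - x v‖ ^ α ≤ B) : trm x α s p u ≤ B := by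
  classical
  have : Nonempty V := ⟨s⟩
  refine ciSup_le fun v => ?_
  by_cases h1 : v ≠ s ∧ p v = u
  · rw [if_pos h1]
    exact h v h1.1 h1.2
  · rw [if_neg h1]
    exact hB

/-- the points `0`, `ε y_i`, `y_i` -/
noncomputable def xx {d k : ℕ} (ε : ℝ) (y : Fin k → EuclideanSpace ℝ (Fin d)) :
    Option (Fin k × Bool) → EuclideanSpace ℝ (Fin d)
  | none => 0
  | some (i, false) => ε • y i
  | some (i, true) => y i

/-- the minimum spanning tree -/
def pp {k : ℕ} : Option (Fin k × Bool) → Option (Fin k × Bool)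
  | none => none
  | some (_, false) => none
  | some (i, true) => some (i, false)

/-- the distance of a point to the other points -/
noncomputable def mm {k : ℕ} (ε : ℝ) : Option (Fin k × Bool) → ℝ
  | none => 0
  | some (_, false) => ε
  | some (_, true) => 1 - ε

section

variable {d k : ℕ} {ε : ℝ} {y : Fin k → EuclideanSpace ℝ (Fin d)}

theorem norm_eps (hε : 0 < ε) (h1 : ∀ i, ‖y i‖ = 1) (i : Fin k) : ‖ε • y i‖ = ε := by
  rw [norm_smul, h1, Real.norm_eq_abs, abs_of_pos hε, mul_one]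

theorem far_near (hε : 0 < ε) (h1 : ∀ i, ‖y i‖ = 1) (i j : Fin k) :
    1 - ε ≤ ‖y i - ε • y j‖ := by
  have h := norm_sub_norm_le (y i) (ε • y j)
  rwa [h1, norm_eps hε h1] at h

theorem mm_le (hε : 0 < ε) (hε2 : ε ≤ 1 / 2) (h1 : ∀ i, ‖y i‖ = 1)
    (h2 : ∀ i j, i ≠ j → 1 ≤ ‖y i - y j‖) {u v : Option (Fin k × Bool)} (hv : v ≠ none)
    (huv : u ≠ v) : mm ε v ≤ ‖xx ε y v - xx ε y u‖ := by
  rcases v with _ | ⟨i, _ | _⟩
  · exact absurd rfl hv
  · rcases u with _ | ⟨j, _ | _⟩
    · simp only [mm, xx, sub_zero, norm_eps hε h1, le_refl]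
    · have hij : i ≠ j := by rintro rfl; exact huv rfl
      simp only [mm, xx]
      rw [← smul_sub, norm_smul, Real.norm_eq_abs, abs_of_pos hε]
      nlinarith [h2 i j hij]
    · simp only [mm, xx]
      rw [norm_sub_rev]
      linarith [far_near hε h1 j i]
  · rcases u with _ | ⟨j, _ | _⟩
    · simp only [mm, xx, sub_zero, h1]
      linarith
    · simp only [mm, xx]
      exact far_near hε h1 i j
    · have hij : i ≠ j := by rintro rfl; exact huv rfl
      simp only [mm, xx]
      linarith [h2 i j hij]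

theorem mm_pos (hε : 0 < ε) (hε2 : ε ≤ 1 / 2) {v : Option (Fin k × Bool)} (hv : v ≠ none) :
    0 < mm ε v := by
  rcases v with _ | ⟨i, _ | _⟩
  · exact absurd rfl hv
  · simpa [mm] using hε
  · simp only [mm]
    linarith

theorem xx_inj (hε : 0 < ε) (hε2 : ε ≤ 1 / 2) (h1 : ∀ i, ‖y i‖ = 1)
    (h2 : ∀ i j, i ≠ j → 1 ≤ ‖y i - y j‖) : Function.Injective (xx ε y) := by
  intro u v huv
  by_contra hne
  by_cases hv : v = none
  · have hu : u ≠ none := fun h => hne (h.trans hv.symm)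
    have h3 := mm_le hε hε2 h1 h2 hu (fun h => hne h.symm)
    rw [huv, sub_self, norm_zero] at h3
    exact absurd (mm_pos hε hε2 hu) (not_lt.2 h3)
  · have h3 := mm_le hε hε2 h1 h2 hv hne
    rw [huv, sub_self, norm_zero] at h3
    exact absurd (mm_pos hε hε2 hv) (not_lt.2 h3)

theorem pp_arb : Arb (none : Option (Fin k × Bool)) pp := by
  refine ⟨rfl, fun v => ?_⟩
  rcases v with _ | ⟨i, _ | _⟩
  · exact ⟨0, rfl⟩
  · exact ⟨1, rfl⟩
  · exact ⟨2, rfl⟩

theorem pp_mst (hε : 0 < ε) (hε2 : ε ≤ 1 / 2) (h1 : ∀ i, ‖y i‖ = 1)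
    (h2 : ∀ i j, i ≠ j → 1 ≤ ‖y i - y j‖) : IsMST (xx ε y) none pp := by
  refine ⟨pp_arb, fun q hq => ?_⟩
  unfold len
  refine Finset.sum_le_sum fun v _ => ?_
  by_cases hv : v = none
  · subst hv
    rw [hq.1]
    simp [pp]
  · refine le_trans ?_ (mm_le hε hε2 h1 h2 hv (arb_ne hq hv))
    rcases v with _ | ⟨i, _ | _⟩
    · exact absurd rfl hv
    · simp only [mm, xx, pp, sub_zero, norm_eps hε h1, le_refl]
    · simp only [mm, xx, pp]
      have h3 : y i - ε • y i = (1 - ε) • y i := by rw [sub_smul, one_smul]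
      rw [h3, norm_smul, h1, Real.norm_eq_abs, abs_of_pos (by linarith), mul_one]

theorem pp_energy (hε : 0 < ε) (hε2 : ε ≤ 1 / 2) (h1 : ∀ i, ‖y i‖ = 1) (α : ℝ) :
    k * (1 - ε) ^ α ≤ energy (xx ε y) α none pp := by
  rw [energy_eq]
  have hinj : Function.Injective fun i : Fin k => (some (i, false) : Option (Fin k × Bool)) := by
    intro i j h
    simpa using h
  calc (k : ℝ) * (1 - ε) ^ α = ∑ i : Fin k, (1 - ε) ^ α := by
        rw [Finset.sum_const, Finset.card_univ, Fintype.card_fin, nsmul_eq_mul]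
    _ ≤ ∑ i : Fin k, trm (xx ε y) α none pp (some (i, false)) := by
        refine Finset.sum_le_sum fun i _ => ?_
        have h := le_trm (xx ε y) α (s := none) (p := pp) (v := some (i, true)) (by simp)
        have h3 : ‖xx ε y (pp (some (i, true))) - xx ε y (some (i, true))‖ = 1 - ε := by
          simp only [xx, pp]
          have h4 : ε • y i - y i = (ε - 1) • y i := by rw [sub_smul, one_smul]
          rw [h4, norm_smul, h1, Real.norm_eq_abs, abs_of_neg (by linarith)]
          ring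
        rw [h3] at h
        exact h
    _ = ∑ u ∈ Finset.univ.image fun i : Fin k => (some (i, false) : Option (Fin k × Bool)),
          trm (xx ε y) α none pp u :=
        (Finset.sum_image (fun i _ j _ h => hinj h)).symm
    _ ≤ _ := by
        refine Finset.sum_le_sum_of_subset_of_nonneg (Finset.subset_univ _) fun u _ _ => ?_
        exact trm_nonneg _ _ _ _ _

theorem opt_le_one (hε : 0 < ε) (hε2 : ε ≤ 1 / 2) (h1 : ∀ i, ‖y i‖ = 1) {α : ℝ} (hα : 0 ≤ α)
    {q : Option (Fin k × Bool) → Option (Fin k × Bool)} (hq : IsOpt (xx ε y) α none q) :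
    energy (xx ε y) α none q ≤ 1 := by
  refine (hq.2 (fun _ => none) ⟨rfl, fun v => ⟨1, rfl⟩⟩).trans ?_
  rw [energy_eq, ← Finset.add_sum_erase _ _ (Finset.mem_univ none)]
  have h3 : ∑ u ∈ (Finset.univ : Finset (Option (Fin k × Bool))).erase none,
      trm (xx ε y) α none (fun _ => none) u ≤ 0 := by
    refine Finset.sum_nonpos fun u hu => ?_
    have hu' : none ≠ u := (Finset.ne_of_mem_erase hu).symm
    exact trm_le _ _ le_rfl fun v _ h => absurd h hu'
  have h5 : trm (xx ε y) α none (fun _ => none) none ≤ 1 := by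
    refine trm_le _ _ zero_le_one fun v _ _ => ?_
    have h4 : ‖xx ε y none - xx ε y v‖ ≤ 1 := by
      rcases v with _ | ⟨i, _ | _⟩
      · simp [xx]
      · simp only [xx, zero_sub, norm_neg, norm_eps hε h1]
        linarith
      · simp only [xx, zero_sub, norm_neg, h1, le_refl]
    exact Real.rpow_le_one (norm_nonneg _) h4 hα
  linarith

theorem opt_pos (hε : 0 < ε) (hε2 : ε ≤ 1 / 2) (h1 : ∀ i, ‖y i‖ = 1)
    (h2 : ∀ i j, i ≠ j → 1 ≤ ‖y i - y j‖) (hk : 0 < k) {α : ℝ}
    {q : Option (Fin k × Bool) → Option (Fin k × Bool)} (hq : Arb none q) :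
    0 < energy (xx ε y) α none q := by
  set v : Option (Fin k × Bool) := some (⟨0, hk⟩, true) with hv
  have hv1 : v ≠ none := by simp [hv]
  have h3 := mm_le hε hε2 h1 h2 hv1 (arb_ne hq hv1)
  rw [norm_sub_rev] at h3
  have h4 : 0 < ‖xx ε y (q v) - xx ε y v‖ := (mm_pos hε hε2 hv1).trans_le h3
  have h5 := le_trm (xx ε y) α (s := none) (p := q) hv1
  have h6 := Finset.single_le_sum (f := fun u => trm (xx ε y) α none q u)
    (fun u _ => trm_nonneg (xx ε y) α none q u) (Finset.mem_univ (q v))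
  have h7 : 0 < ‖xx ε y (q v) - xx ε y v‖ ^ α := by positivity
  exact h7.trans_le (h5.trans h6)

end

theorem lower (d : ℕ) {α : ℝ} (hα : 0 ≤ α) : (kissing d : ℝ≥0∞) ≤ rho d α := by
  rcases Nat.eq_zero_or_pos (kissing d) with h0 | hk
  · rw [h0]
    simp
  obtain ⟨y, h1, h2⟩ := kissing_attained d
  have hε : ∀ ε : ℝ, 0 < ε → ε ≤ 1 / 2 →
      ENNReal.ofReal (kissing d * (1 - ε) ^ α) ≤ rho d α := by
    intro ε hε hε2
    obtain ⟨q, hq⟩ := exists_opt (xx ε y) α none
    refine le_trans ?_ (le_sSup ⟨Option (Fin (kissing d) × Bool), inferInstance, xx ε y, none,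
      pp, q, ?_, xx_inj hε hε2 h1 h2, pp_mst hε hε2 h1 h2, hq, rfl⟩)
    · apply ENNReal.ofReal_le_ofReal
      have hpos := opt_pos (α := α) hε hε2 h1 h2 hk hq.1
      rw [le_div_iff₀ hpos]
      have h3 := pp_energy hε hε2 h1 α
      have h4 := opt_le_one hε hε2 h1 hα hq
      have h5 : 0 ≤ (kissing d : ℝ) * (1 - ε) ^ α := by
        have : 0 ≤ 1 - ε := by linarith
        positivity
      nlinarith
    · exact ⟨⟨none, some (⟨0, hk⟩, true), by simp⟩⟩
  have ht : Tendsto (fun ε : ℝ => ENNReal.ofReal (kissing d * (1 - ε) ^ α)) (𝓝[>] 0)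
      (𝓝 (kissing d : ℝ≥0∞)) := by
    have h3 : ContinuousAt (fun ε : ℝ => ENNReal.ofReal (kissing d * (1 - ε) ^ α)) 0 := by
      refine ENNReal.continuous_ofReal.continuousAt.comp ?_
      refine continuousAt_const.mul ?_
      exact (continuousAt_const.sub continuousAt_id).rpow_const (Or.inl (by norm_num))
    have h4 := h3.tendsto.mono_left (nhdsWithin_le_nhds (s := Ioi 0))
    simpa using h4
  refine le_of_tendsto ht ?_
  filter_upwards [Ioc_mem_nhdsGT (show (0 : ℝ) < 1 / 2 by norm_num)] with ε he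
  exact hε ε he.1 he.2

end Pool.Agent.Y968.MB
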