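import Pool.Agent.Y968.MB.Upper
import Pool.Agent.Y968.MB.Lower

/-!
# The ratio is at most the maximum cost of a minimum spanning tree in the unit ball
-/

set_option autoImplicit false

namespace Pool.Agent.Y968.MB

open MeasureTheory Set
open scoped ENNReal

/-- the supremum of `∑ |e|^α` over the edges `e` of a minimum spanning tree, for finite subsets of
the closed unit ball containing its centre -/
noncomputable def ballMax (d : ℕ) (α : ℝ) : ℝ≥0∞ :=
  sSup {c | ∃ (V : Type) (_ : Fintype V) (x : V → EuclideanSpace ℝ (Fin d)) (s : V)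
    (p : V → V), Function.Injective x ∧ x s = 0 ∧ (∀ v, ‖x v‖ ≤ 1) ∧ IsMST x s p ∧
      c = ENNReal.ofReal (∑ v, ‖x v - x (p v)‖ ^ α)}

/-- layer cake -/
theorem sum_le_of_card {V W : Type} [Fintype V] [Fintype W] {a : V → ℝ} {b : W → ℝ}
    (ha : ∀ v, 0 ≤ a v) (hb : ∀ w, 0 ≤ b w) {α : ℝ} (hα : 0 < α)
    (h : ∀ L : ℝ, 0 < L → (Finset.univ.filter fun v => L < a v).card ≤
      (Finset.univ.filter fun w => L < b w).card) : ∑ v, a v ^ α ≤ ∑ w, b w ^ α := by
  classical
  have hF : ∀ {U : Type} [Fintype U] (c : U → ℝ) (L : ℝ), ∑ u, FF α (c u) L =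
      ((Finset.univ.filter fun u => L < c u).card : ℝ≥0∞) * ENNReal.ofReal (α * L ^ (α - 1)) := by
    intro U _ c L
    unfold FF
    rw [← Finset.sum_filter, Finset.sum_const, nsmul_eq_mul]
  have h5 : ENNReal.ofReal (∑ v, a v ^ α) ≤ ENNReal.ofReal (∑ w, b w ^ α) := by
    rw [ENNReal.ofReal_sum_of_nonneg fun v _ => Real.rpow_nonneg (ha v) _,
      ENNReal.ofReal_sum_of_nonneg fun v _ => Real.rpow_nonneg (hb v) _]
    calc ∑ v, ENNReal.ofReal (a v ^ α) = ∑ v, ∫⁻ L in Ioi (0 : ℝ), FF α (a v) L :=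
          Finset.sum_congr rfl fun v _ => (lint_FF hα (ha v)).symm
      _ = ∫⁻ L in Ioi (0 : ℝ), ∑ v, FF α (a v) L :=
          (lintegral_finsetSum _ fun v _ => FF_meas _ _).symm
      _ ≤ ∫⁻ L in Ioi (0 : ℝ), ∑ w, FF α (b w) L := by
          refine setLIntegral_mono' measurableSet_Ioi fun L hL => ?_
          rw [hF, hF]
          exact mul_le_mul_left (by exact_mod_cast h L hL) _
      _ = ∑ w, ∫⁻ L in Ioi (0 : ℝ), FF α (b w) L :=
          lintegral_finsetSum _ fun v _ => FF_meas _ _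
      _ = ∑ w, ENNReal.ofReal (b w ^ α) :=
          Finset.sum_congr rfl fun v _ => lint_FF hα (hb v)
  rw [ENNReal.ofReal_le_ofReal_iff (Finset.sum_nonneg fun v _ => Real.rpow_nonneg (hb v) _)] at h5
  exact h5

theorem exists_mst {V : Type} [Fintype V] {d : ℕ} (x : V → EuclideanSpace ℝ (Fin d)) (s : V) :
    ∃ p, IsMST x s p := by
  classical
  obtain ⟨q, hq, hmin⟩ := Finset.exists_min_image
    (Finset.univ.filter fun q : V → V => Arb s q) (len x)
    ⟨fun _ => s, by
      rw [Finset.mem_filter]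
      exact ⟨Finset.mem_univ _, rfl, fun v => ⟨1, rfl⟩⟩⟩
  refine ⟨q, (Finset.mem_filter.1 hq).2, fun q' hq' => hmin q' ?_⟩
  exact Finset.mem_filter.2 ⟨Finset.mem_univ _, hq'⟩

/-- tops of classes -/
theorem tops {V K : Type} [Fintype V] {s : V} {q : V → V} (hq : Arb s q) (c : V → K)
    (I : Finset K) (hI : ∀ i ∈ I, i ≠ c s ∧ ∃ v, c v = i) :
    ∃ f : K → V, ∀ i ∈ I, c (f i) = i ∧ f i ≠ s ∧ c (q (f i)) ≠ i := by
  classical
  have h : ∀ i, ∃ v, i ∈ I → c v = i ∧ v ≠ s ∧ c (q v) ≠ i := by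
    intro i
    by_cases hi : i ∈ I
    · obtain ⟨h1, v0, h2⟩ := hI i hi
      obtain ⟨v, hv, hvm⟩ := Finset.exists_min_image (Finset.univ.filter fun v => c v = i)
        (dep hq) ⟨v0, by simp [h2]⟩
      rw [Finset.mem_filter] at hv
      have hvs : v ≠ s := by
        rintro rfl
        exact h1 hv.2.symm
      refine ⟨v, fun _ => ⟨hv.2, hvs, fun he => ?_⟩⟩
      have h3 := hvm (q v) (Finset.mem_filter.2 ⟨Finset.mem_univ _, he⟩)
      have h4 := dep_lt hq hvs
      omega
    · exact ⟨s, fun h => absurd h hi⟩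
  choose f hf using h
  exact ⟨f, hf⟩

open Classical in
theorem card_classes {V K : Type} [Fintype V] {d : ℕ} {x : V → EuclideanSpace ℝ (Fin d)} {s : V}
    {q : V → V} (hq : Arb s q) {L : ℝ} (c : V → K) (hc : ∀ v v', ‖x v - x v'‖ ≤ L → c v = c v')
    (I : Finset K) (hI : ∀ i ∈ I, i ≠ c s ∧ ∃ v, c v = i) :
    I.card ≤ (Finset.univ.filter fun v => L < ‖x v - x (q v)‖).card := by
  obtain ⟨f, hf⟩ := tops hq c I hI
  refine Finset.card_le_card_of_injOn f (fun i hi => ?_) fun i hi j hj hij => ?_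
  · obtain ⟨h1, h2, h3⟩ := hf i hi
    rw [Finset.coe_filter]
    refine ⟨Finset.mem_univ _, ?_⟩
    by_contra hcon
    apply h3
    rw [← hc _ _ (not_lt.1 hcon), h1]
  · rw [← (hf i hi).1, ← (hf j hj).1, hij]

open Classical in
/-- the classes of a minimum spanning tree at level `L` -/
theorem mst_classes {V : Type} [Fintype V] {d : ℕ} {x : V → EuclideanSpace ℝ (Fin d)} {s : V}
    {p : V → V} (h : IsMST x s p) {L : ℝ} (hL : 0 < L) :
    ∃ (c : V → Finset V) (I : Finset (Finset V)), (∀ v v', ‖x v - x v'‖ ≤ L → c v = c v') ∧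
      (∀ i ∈ I, i ≠ c s ∧ ∃ v, c v = i) ∧
      (Finset.univ.filter fun w => L < ‖x w - x (p w)‖).card ≤ I.card := by
  set W : Finset V := Finset.univ.filter fun w => L < ‖x w - x (p w)‖ with hW
  have hmem : ∀ w, w ∈ W → w ≠ s ∧ L < ‖x w - x (p w)‖ := by
    intro w hw
    have h1 : L < ‖x w - x (p w)‖ := (Finset.mem_filter.1 hw).2
    refine ⟨?_, h1⟩
    rintro rfl
    rw [h.1.1, sub_self, norm_zero] at h1
    linarith
  let anc : V → Finset V := fun v => W.filter fun z => An p z v
  have hself : ∀ w, w ∈ W → w ∈ anc w := fun w hw => Finset.mem_filter.2 ⟨hw, An.refl p w⟩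
  refine ⟨anc, W.image anc, fun v v' hvv => ?_, fun i hi => ?_, ?_⟩
  · ext z
    simp only [anc, Finset.mem_filter]
    constructor
    · rintro ⟨hz, hv⟩
      refine ⟨hz, ?_⟩
      by_contra hv'
      obtain ⟨h1, h2⟩ := hmem z hz
      exact absurd (h2.trans_le (exchange h h1 hv hv')) (not_lt.2 hvv)
    · rintro ⟨hz, hv⟩
      refine ⟨hz, ?_⟩
      by_contra hv'
      obtain ⟨h1, h2⟩ := hmem z hz
      have h3 := exchange h h1 hv hv'
      rw [norm_sub_rev (x v')] at h3
      exact absurd (h2.trans_le h3) (not_lt.2 hvv)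
  · obtain ⟨w, hw, rfl⟩ := Finset.mem_image.1 hi
    refine ⟨fun he => ?_, w, rfl⟩
    have h1 := hself w hw
    rw [he] at h1
    obtain ⟨k, hk⟩ := (Finset.mem_filter.1 h1).2
    rw [iter_root h.1] at hk
    exact (hmem w hw).1 hk.symm
  · refine (Finset.card_image_of_injOn ?_).ge
    intro w hw w' hw' he
    have h3 := hself w hw
    have h4 := hself w' hw'
    rw [show anc w = anc w' from he] at h3
    rw [← show anc w = anc w' from he] at h4
    exact An.antisymm h.1 (Finset.mem_filter.1 h4).2 (Finset.mem_filter.1 h3).2 |>.symm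

/-- a minimum spanning tree minimises all power costs -/
theorem mst_opt {V : Type} [Fintype V] {d : ℕ} {x : V → EuclideanSpace ℝ (Fin d)} {s : V}
    {p q : V → V} (h : IsMST x s p) (hq : Arb s q) {α : ℝ} (hα : 0 < α) :
    ∑ v, ‖x v - x (p v)‖ ^ α ≤ ∑ v, ‖x v - x (q v)‖ ^ α := by
  classical
  refine sum_le_of_card (fun _ => norm_nonneg _) (fun _ => norm_nonneg _) hα fun L hL => ?_
  obtain ⟨c, I, h1, h2, h3⟩ := mst_classes h hL
  have h4 := card_classes hq c h1 I h2
  convert h3.trans h4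

/-- the star of `u` -/
def Star {V : Type} (s : V) (q : V → V) (u : V) : Type := {v : V // v = u ∨ (v ≠ s ∧ q v = u)}

noncomputable instance {V : Type} [Fintype V] (s : V) (q : V → V) (u : V) :
    Fintype (Star s q u) := by
  classical
  unfold Star
  infer_instance

/-- the centre of the star -/
def ctr {V : Type} (s : V) (q : V → V) (u : V) : Star s q u := ⟨u, Or.inl rfl⟩

theorem star_cost {V : Type} [Fintype V] {d : ℕ} {x : V → EuclideanSpace ℝ (Fin d)}
    (hx : Function.Injective x) {s : V} {q : V → V} (u : V) {α : ℝ} (hα : 0 < α)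
    {p : Star s q u → Star s q u} (hp : IsMST (fun v : Star s q u => x v.1) (ctr s q u) p) :
    ENNReal.ofReal (∑ v, ‖x v.1 - x (p v).1‖ ^ α) ≤
      ENNReal.ofReal (rad x s q u ^ α) * ballMax d α := by
  have hr := rad_nonneg x s q u
  have hle : ∀ v : Star s q u, ‖x v.1 - x u‖ ≤ rad x s q u := by
    rintro ⟨v, rfl | ⟨h1, h2⟩⟩
    · simpa using hr
    · have := le_rad (x := x) (q := q) h1
      rw [h2] at this
      exact this
  rcases hr.eq_or_lt with h0 | h0
  · have h1 : ∀ v : Star s q u, v.1 = u := by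
      intro v
      have h2 := hle v
      rw [← h0] at h2
      exact hx (sub_eq_zero.1 (norm_le_zero_iff.1 h2))
    have h3 : ∑ v : Star s q u, ‖x v.1 - x (p v).1‖ ^ α = 0 := by
      refine Finset.sum_eq_zero fun v _ => ?_
      rw [h1 v, h1 (p v), sub_self, norm_zero, Real.zero_rpow hα.ne']
    rw [h3]
    simp
  · set r := rad x s q u with hrdef
    have hn : ∀ z : EuclideanSpace ℝ (Fin d), ‖(1 / r : ℝ) • z‖ = 1 / r * ‖z‖ := by
      intro z
      rw [norm_smul, Real.norm_eq_abs, abs_of_pos (by positivity)]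
    let y : Star s q u → EuclideanSpace ℝ (Fin d) := fun v => (1 / r : ℝ) • (x v.1 - x u)
    have hy : ∀ v w : Star s q u, ‖y v - y w‖ = 1 / r * ‖x v.1 - x w.1‖ := by
      intro v w
      simp only [y]
      rw [← smul_sub, sub_sub_sub_cancel_right, hn]
    have hlen : ∀ p' : Star s q u → Star s q u,
        len y p' = 1 / r * len (fun v : Star s q u => x v.1) p' := by
      intro p'
      unfold len
      rw [Finset.mul_sum]
      exact Finset.sum_congr rfl fun v _ => hy _ _
    have hmst : IsMST y (ctr s q u) p := by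
      refine ⟨hp.1, fun q' hq' => ?_⟩
      rw [hlen, hlen]
      exact mul_le_mul_of_nonneg_left (hp.2 q' hq') (by positivity)
    have hinj : Function.Injective y := by
      intro v w hvw
      have h1 := hy v w
      rw [hvw, sub_self, norm_zero] at h1
      have h2 : ‖x v.1 - x w.1‖ = 0 := by
        rcases mul_eq_zero.1 h1.symm with h3 | h3
        · exact absurd h3 (by positivity)
        · exact h3
      exact Subtype.ext (hx (sub_eq_zero.1 (norm_eq_zero.1 h2)))
    have hb : ENNReal.ofReal (∑ v, ‖y v - y (p v)‖ ^ α) ≤ ballMax d α := by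
      refine le_sSup ⟨Star s q u, inferInstance, y, ctr s q u, p, hinj, ?_, fun v => ?_, hmst, rfl⟩
      · simp [y, ctr]
      · simp only [y]
        rw [hn, one_div, inv_mul_le_iff₀ h0, mul_one]
        exact hle v
    have h4 : ∑ v, ‖x v.1 - x (p v).1‖ ^ α = r ^ α * ∑ v, ‖y v - y (p v)‖ ^ α := by
      rw [Finset.mul_sum]
      refine Finset.sum_congr rfl fun v _ => ?_
      rw [hy, ← Real.mul_rpow hr (by positivity)]
      congr 1
      field_simp
    rw [h4, ENNReal.ofReal_mul (by positivity)]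
    exact mul_le_mul_right hb _

/-- the ratio is at most the maximum in the ball -/
theorem rho_le_ballMax (d : ℕ) {α : ℝ} (hα : 0 < α) : rho d α ≤ ballMax d α := by
  classical
  refine sSup_le ?_
  rintro _ ⟨V, _, x, s, p, q, _, hx, hp, hq, rfl⟩
  have hex : ∀ u, ∃ pu, IsMST (fun v : Star s q u => x v.1) (ctr s q u) pu :=
    fun u => exists_mst _ _
  choose pu hpu using hex
  have h1 : ∑ v, ‖x v - x (p v)‖ ^ α ≤
      ∑ w : (Σ u, Star s q u), ‖x w.2.1 - x (pu w.1 w.2).1‖ ^ α := by
    refine sum_le_of_card (fun _ => norm_nonneg _) (fun _ => norm_nonneg _) hα fun L hL => ?_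
    obtain ⟨c, I, h1, h2, h3⟩ := mst_classes hp hL
    obtain ⟨f, hf⟩ := tops hq.1 c I h2
    have h4 : ∀ u, (I.filter fun i => q (f i) = u).card ≤
        (Finset.univ.filter fun v : Star s q u => L < ‖x v.1 - x (pu u v).1‖).card := by
      intro u
      have := card_classes (x := fun v : Star s q u => x v.1) (hpu u).1
        (fun v : Star s q u => c v.1) (fun v v' h => h1 _ _ h) (I.filter fun i => q (f i) = u)
        (fun i hi => by
          obtain ⟨hi1, hi2⟩ := Finset.mem_filter.1 hi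
          obtain ⟨h5, h6, h7⟩ := hf i hi1
          refine ⟨?_, ⟨f i, Or.inr ⟨h6, hi2⟩⟩, h5⟩
          rw [hi2] at h7
          exact h7.symm)
      convert this
    have h5 : I.card = ∑ u, (I.filter fun i => q (f i) = u).card :=
      Finset.card_eq_sum_card_fiberwise fun v _ => Finset.mem_univ _
    have h6 : (Finset.univ.filter fun w : (Σ u, Star s q u) =>
        L < ‖x w.2.1 - x (pu w.1 w.2).1‖).card =
        ∑ u, (Finset.univ.filter fun v : Star s q u => L < ‖x v.1 - x (pu u v).1‖).card := by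
      rw [Finset.card_filter, Fintype.sum_sigma]
      exact Finset.sum_congr rfl fun u _ => (Finset.card_filter _ _).symm
    rw [h6]
    refine le_trans ?_ (Finset.sum_le_sum fun u _ => h4 u)
    rw [← h5]
    convert h3
  have h2 : ENNReal.ofReal (energy x α s p) ≤ ENNReal.ofReal (energy x α s q) * ballMax d α := by
    calc ENNReal.ofReal (energy x α s p) ≤ ENNReal.ofReal (∑ v, ‖x v - x (p v)‖ ^ α) :=
          ENNReal.ofReal_le_ofReal (energy_le x)
      _ ≤ ENNReal.ofReal (∑ w : (Σ u, Star s q u), ‖x w.2.1 - x (pu w.1 w.2).1‖ ^ α) :=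
          ENNReal.ofReal_le_ofReal h1
      _ = ∑ u, ENNReal.ofReal (∑ v, ‖x v.1 - x (pu u v).1‖ ^ α) := by
          rw [Fintype.sum_sigma, ENNReal.ofReal_sum_of_nonneg]
          intro u _
          exact Finset.sum_nonneg fun v _ => by positivity
      _ ≤ ∑ u, ENNReal.ofReal (rad x s q u ^ α) * ballMax d α :=
          Finset.sum_le_sum fun u _ => star_cost hx u hα (hpu u)
      _ = ENNReal.ofReal (∑ u, rad x s q u ^ α) * ballMax d α := by
          rw [← Finset.sum_mul, ENNReal.ofReal_sum_of_nonneg]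
          intro u _
          have := rad_nonneg x s q u
          positivity
      _ ≤ _ := mul_le_mul_left (ENNReal.ofReal_le_ofReal (rad_pow x hα)) _
  have h3 := energy_nonneg x α s q
  rcases h3.eq_or_lt with h4 | h4
  · rw [← h4, div_zero]
    simp
  · rw [ENNReal.ofReal_div_of_pos h4]
    refine ENNReal.div_le_of_le_mul ?_
    rw [mul_comm]
    exact h2

/-- the edges of a minimum spanning tree in the ball have length at most `1` -/
theorem edge_le_one {V : Type} [Fintype V] {d : ℕ} {x : V → EuclideanSpace ℝ (Fin d)} {s : V}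
    {p : V → V} (hp : IsMST x s p) (hs : x s = 0) (h1 : ∀ v, ‖x v‖ ≤ 1) (v : V) :
    ‖x v - x (p v)‖ ≤ 1 := by
  by_cases hv : v = s
  · subst hv
    rw [hp.1.1, sub_self, norm_zero]
    exact zero_le_one
  · have h2 := exchange hp hv (An.refl p v) (b := s) (by
      rintro ⟨k, hk⟩
      rw [iter_root hp.1] at hk
      exact hv hk.symm)
    rw [hs, sub_zero] at h2
    exact h2.trans (h1 v)

theorem ballMax_anti (d : ℕ) {α β : ℝ} (hα : 0 < α) (h : α ≤ β) : ballMax d β ≤ ballMax d α := by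
  refine sSup_le ?_
  rintro _ ⟨V, _, x, s, p, hx, hs, h1, hp, rfl⟩
  refine le_trans (ENNReal.ofReal_le_ofReal ?_) (le_sSup ⟨V, _, x, s, p, hx, hs, h1, hp, rfl⟩)
  refine Finset.sum_le_sum fun v _ => ?_
  rcases (norm_nonneg (x v - x (p v))).eq_or_lt with h0 | h0
  · rw [← h0, Real.zero_rpow hα.ne', Real.zero_rpow (hα.trans_le h).ne']
  · exact Real.rpow_le_rpow_of_exponent_ge h0 (edge_le_one hp hs h1 v) h

end Pool.Agent.Y968.MB
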