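import Mathlib

/-!
# Broadcasting in Euclidean space: broadcast trees, the MST heuristic, kissing numbers
-/

set_option autoImplicit false

namespace Pool.Agent.Y968.MB

open scoped ENNReal

/-- `p` is the parent map of a directed spanning tree on `V` with root `s` (every vertex can be
reached from `s`); the edges are `p v → v` for `v ≠ s`, and by convention `p s = s`. -/
def Arb {V : Type} (s : V) (p : V → V) : Prop :=
  p s = s ∧ ∀ v, ∃ k : ℕ, p^[k] v = s

/-- the total Euclidean length of the edges of the tree (the root contributes `0`) -/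
noncomputable def len {V : Type} [Fintype V] {d : ℕ} (x : V → EuclideanSpace ℝ (Fin d))
    (p : V → V) : ℝ :=
  ∑ v, ‖x v - x (p v)‖

open Classical in
/-- the energy `∑ u, max_{v child of u} |u v|^α` of the tree; the maximum over no children is `0` -/
noncomputable def energy {V : Type} [Fintype V] {d : ℕ} (x : V → EuclideanSpace ℝ (Fin d))
    (α : ℝ) (s : V) (p : V → V) : ℝ :=
  ∑ u, ⨆ v, if v ≠ s ∧ p v = u then ‖x u - x v‖ ^ α else 0

/-- `p` is a Euclidean minimum spanning tree, oriented away from `s` -/
def IsMST {V : Type} [Fintype V] {d : ℕ} (x : V → EuclideanSpace ℝ (Fin d)) (s : V)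
    (p : V → V) : Prop :=
  Arb s p ∧ ∀ q, Arb s q → len x p ≤ len x q

/-- `q` is a broadcast tree of minimum energy -/
def IsOpt {V : Type} [Fintype V] {d : ℕ} (x : V → EuclideanSpace ℝ (Fin d)) (α : ℝ) (s : V)
    (q : V → V) : Prop :=
  Arb s q ∧ ∀ q', Arb s q' → energy x α s q ≤ energy x α s q'

/-- the approximation ratio `ρ_d(α)` of the MST heuristic in `ℝ^d`: the supremum of the ratios of
the energy of the oriented minimum spanning tree and the minimum energy, over all finite point sets
with at least two points, all sources and all minimum spanning trees. -/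
noncomputable def rho (d : ℕ) (α : ℝ) : ℝ≥0∞ :=
  sSup {ρ | ∃ (V : Type) (_ : Fintype V) (x : V → EuclideanSpace ℝ (Fin d)) (s : V)
    (p q : V → V), Nontrivial V ∧ Function.Injective x ∧ IsMST x s p ∧ IsOpt x α s q ∧
      ρ = ENNReal.ofReal (energy x α s p / energy x α s q)}

/-- the kissing number of `ℝ^d`: the maximum number of unit vectors with pairwise distances at
least `1`. -/
noncomputable def kissing (d : ℕ) : ℕ :=
  sSup {k | ∃ y : Fin k → EuclideanSpace ℝ (Fin d), (∀ i, ‖y i‖ = 1) ∧
    ∀ i j, i ≠ j → 1 ≤ ‖y i - y j‖}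

end Pool.Agent.Y968.MB
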