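import Pool.Agent.Y968.MB.Pts

/-!
# The ratio in three dimensions exceeds twelve
-/

set_option autoImplicit false

namespace Pool.Agent.Y968.MB

open Set Filter Topology
open scoped ENNReal

theorem arb_two {V : Type} {s : V} {q : V → V} (hq : Arb s q) {u v : V} (hu : u ≠ s) (hv : v ≠ s)
    (h : q v = u) : q u ≠ v := by
  intro h'
  have h1 := dep_lt hq hv
  have h2 := dep_lt hq hu
  rw [h] at h1
  rw [h'] at h2
  omega

theorem energy_pos {V : Type} [Fintype V] {d : ℕ} {x : V → EuclideanSpace ℝ (Fin d)}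
    (hx : Function.Injective x) {α : ℝ} {s : V} {q : V → V} (hq : Arb s q) {v : V} (hv : v ≠ s) :
    0 < energy x α s q := by
  have h4 : 0 < ‖x (q v) - x v‖ := norm_pos_iff.2 (sub_ne_zero.2 fun h => arb_ne hq hv (hx h))
  have h5 := le_trm x α (s := s) (p := q) hv
  have h6 := Finset.single_le_sum (f := fun u => trm x α s q u)
    (fun u _ => trm_nonneg x α s q u) (Finset.mem_univ (q v))
  have h7 : 0 < ‖x (q v) - x v‖ ^ α := by positivity
  exact h7.trans_le (h5.trans h6)

/-- the minimum spanning tree: `0 → ε y_i → y_i` for `i ≠ 1`, `ε y_0 → ε y_1`, `y_0 → y_1` -/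
def p13 : Option (Fin 13 × Bool) → Option (Fin 13 × Bool)
  | none => none
  | some (i, b) => if i = 1 then some (0, b) else if b = true then some (i, false) else none

theorem p13_arb : Arb (none : Option (Fin 13 × Bool)) p13 := by
  refine ⟨rfl, fun v => ⟨3, ?_⟩⟩
  revert v
  decide

/-- the usual distance in a layer -/
noncomputable def mb (ε : ℝ) (b : Bool) : ℝ := if b = true then 1 - ε else ε

/-- the distance of the close pair in a layer -/
noncomputable def sb (ε : ℝ) (b : Bool) : ℝ := if b = true then ss else ε * ss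

/-- `i`, `j` is the close pair -/
def Close (i j : Fin 13) : Prop := (i = 0 ∧ j = 1) ∨ (i = 1 ∧ j = 0)

variable {ε : ℝ}

theorem sb_le (hε : 0 < ε) (hε2 : ε ≤ 1 / 2) (b : Bool) : sb ε b ≤ mb ε b := by
  have h1 := ss_le
  unfold sb mb
  split_ifs
  · linarith
  · nlinarith

theorem sb_pos (hε : 0 < ε) (b : Bool) : 0 < sb ε b := by
  have h1 := ss_ge
  unfold sb
  split_ifs
  · linarith
  · have : 0 < ss := by linarith
    positivity

theorem mb_le (hε : 0 < ε) (hε2 : ε ≤ 1 / 2) {i : Fin 13} {b : Bool}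
    {u : Option (Fin 13 × Bool)} (hu : u ≠ some (i, b))
    (hc : ∀ j, u = some (j, b) → ¬ Close i j) :
    mb ε b ≤ ‖xx ε yy (some (i, b)) - xx ε yy u‖ := by
  have h1 := yy_norm
  cases b with
  | false =>
    rcases u with _ | ⟨j, _ | _⟩
    · simp [mb, xx, norm_eps hε h1]
    · have hij : i ≠ j := by rintro rfl; exact hu rfl
      have hc' := hc j rfl
      have h2 := yy_far hij (fun h => hc' (Or.inl h)) (fun h => hc' (Or.inr h))
      simp only [mb, xx, Bool.false_eq_true, if_false]
      rw [← smul_sub, norm_smul, Real.norm_eq_abs, abs_of_pos hε]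
      nlinarith
    · simp only [mb, xx, Bool.false_eq_true, if_false]
      rw [norm_sub_rev]
      linarith [far_near hε h1 j i]
  | true =>
    rcases u with _ | ⟨j, _ | _⟩
    · simp only [mb, xx, sub_zero, h1, if_true]
      linarith
    · simp only [mb, xx, if_true]
      exact far_near hε h1 i j
    · have hij : i ≠ j := by rintro rfl; exact hu rfl
      have hc' := hc j rfl
      have h2 := yy_far hij (fun h => hc' (Or.inl h)) (fun h => hc' (Or.inr h))
      simp only [mb, xx, if_true]
      linarith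

theorem sb_eq (hε : 0 < ε) {i j : Fin 13} (hc : Close i j) (b : Bool) :
    ‖xx ε yy (some (i, b)) - xx ε yy (some (j, b))‖ = sb ε b := by
  have h0 : ‖yy i - yy j‖ = ss := by
    rcases hc with ⟨rfl, rfl⟩ | ⟨rfl, rfl⟩
    · rfl
    · exact norm_sub_rev _ _
  cases b with
  | false =>
    simp only [sb, xx, Bool.false_eq_true, if_false]
    rw [← smul_sub, norm_smul, Real.norm_eq_abs, abs_of_pos hε, h0]
  | true =>
    simp only [sb, xx, if_true]
    exact h0

theorem sb_le_dist (hε : 0 < ε) (hε2 : ε ≤ 1 / 2) {i : Fin 13} {b : Bool}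
    {u : Option (Fin 13 × Bool)} (hu : u ≠ some (i, b)) :
    sb ε b ≤ ‖xx ε yy (some (i, b)) - xx ε yy u‖ := by
  by_cases hc : ∀ j, u = some (j, b) → ¬ Close i j
  · exact (sb_le hε hε2 b).trans (mb_le hε hε2 hu hc)
  · push Not at hc
    obtain ⟨j, rfl, hc⟩ := hc
    rw [sb_eq hε hc]

theorem xx13_inj (hε : 0 < ε) (hε2 : ε ≤ 1 / 2) : Function.Injective (xx ε yy) := by
  intro u v huv
  by_contra hne
  rcases u with _ | ⟨i, b⟩
  · rcases v with _ | ⟨j, b⟩
    · exact hne rfl
    · have h := sb_le_dist hε hε2 (i := j) (b := b) (u := none) (by simp)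
      rw [← huv, sub_self, norm_zero] at h
      exact absurd (sb_pos hε b) (not_lt.2 h)
  · have h := sb_le_dist hε hε2 (i := i) (b := b) (u := v) (fun h => hne h.symm)
    rw [huv, sub_self, norm_zero] at h
    exact absurd (sb_pos hε b) (not_lt.2 h)

theorem p13_dist (hε : 0 < ε) (hε2 : ε ≤ 1 / 2) {i : Fin 13} (hi : i ≠ 1) (b : Bool) :
    ‖xx ε yy (some (i, b)) - xx ε yy (p13 (some (i, b)))‖ = mb ε b := by
  have h1 := yy_norm
  cases b with
  | false =>
    simp only [mb, xx, p13, if_neg hi, Bool.false_eq_true, if_false, sub_zero, norm_eps hε h1]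
  | true =>
    simp only [mb, xx, p13, if_neg hi, if_true]
    have h3 : yy i - ε • yy i = (1 - ε) • yy i := by rw [sub_smul, one_smul]
    rw [h3, norm_smul, h1, Real.norm_eq_abs, abs_of_pos (by linarith), mul_one]

theorem p13_dist1 (hε : 0 < ε) (b : Bool) :
    ‖xx ε yy (some (1, b)) - xx ε yy (p13 (some (1, b)))‖ = sb ε b := by
  have h : p13 (some (1, b)) = some (0, b) := by simp [p13]
  rw [h]
  exact sb_eq hε (Or.inr ⟨rfl, rfl⟩) b

theorem p13_mst (hε : 0 < ε) (hε2 : ε ≤ 1 / 2) : IsMST (xx ε yy) none p13 := by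
  refine ⟨p13_arb, fun q hq => ?_⟩
  unfold len
  rw [Fintype.sum_option, Fintype.sum_option]
  have h0 : ‖xx ε yy none - xx ε yy (p13 none)‖ ≤ ‖xx ε yy none - xx ε yy (q none)‖ := by
    rw [show p13 none = none from rfl, sub_self, norm_zero]
    exact norm_nonneg _
  refine add_le_add h0 ?_
  rw [Fintype.sum_prod_type_right, Fintype.sum_prod_type_right]
  refine Finset.sum_le_sum fun b _ => ?_
  rw [Fin.sum_univ_succ, Fin.sum_univ_succ, Fin.sum_univ_succ (n := 12), Fin.sum_univ_succ (n := 11),
    ← add_assoc, ← add_assoc]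
  refine add_le_add ?_ (Finset.sum_le_sum fun i _ => ?_)
  · have e0 := p13_dist hε hε2 (i := 0) (by decide) b
    have e1 := p13_dist1 hε b
    have hs : (Fin.succ 0 : Fin 13) = 1 := rfl
    rw [hs, e0, e1]
    by_cases hc : q (some (0, b)) = some (1, b)
    · have h3 : q (some (1, b)) ≠ some (0, b) :=
        arb_two hq (by simp) (by simp) hc
      have h4 : sb ε b ≤ ‖xx ε yy (some (0, b)) - xx ε yy (q (some (0, b)))‖ :=
        sb_le_dist hε hε2 (arb_ne hq (by simp))
      have h5 : mb ε b ≤ ‖xx ε yy (some (1, b)) - xx ε yy (q (some (1, b)))‖ := by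
        refine mb_le hε hε2 (arb_ne hq (by simp)) fun j hj hcl => ?_
        rcases hcl with ⟨h6, _⟩ | ⟨_, rfl⟩
        · exact absurd h6 (by decide)
        · exact h3 hj
      linarith
    · have h4 : mb ε b ≤ ‖xx ε yy (some (0, b)) - xx ε yy (q (some (0, b)))‖ := by
        refine mb_le hε hε2 (arb_ne hq (by simp)) fun j hj hcl => ?_
        rcases hcl with ⟨_, rfl⟩ | ⟨h6, _⟩
        · exact hc hj
        · exact absurd h6 (by decide)
      have h5 : sb ε b ≤ ‖xx ε yy (some (1, b)) - xx ε yy (q (some (1, b)))‖ :=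
        sb_le_dist hε hε2 (arb_ne hq (by simp))
      linarith
  · have hi0 : (i.succ.succ : Fin 13) ≠ 0 := Fin.succ_ne_zero _
    have hi1 : (i.succ.succ : Fin 13) ≠ 1 := by
      intro h
      have h2 := congrArg Fin.val h
      simp at h2
    rw [p13_dist hε hε2 hi1]
    refine mb_le hε hε2 (arb_ne hq (by simp)) fun j hj hcl => ?_
    rcases hcl with ⟨h6, _⟩ | ⟨h6, _⟩
    · exact hi0 h6
    · exact hi1 h6

/-- the tails of the long edges and of the short edge -/
def tl (i : Fin 13) : Option (Fin 13 × Bool) := if i = 1 then some (0, true) else some (i, false)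

theorem tl_inj : Function.Injective tl := by decide

theorem p13_energy (hε : 0 < ε) (hε2 : ε ≤ 1 / 2) (α : ℝ) :
    12 * (1 - ε) ^ α + ss ^ α ≤ energy (xx ε yy) α none p13 := by
  rw [energy_eq]
  calc 12 * (1 - ε) ^ α + ss ^ α = ∑ i : Fin 13, (if i = 1 then ss ^ α else (1 - ε) ^ α) := by
        rw [← Finset.add_sum_erase _ _ (Finset.mem_univ 1), if_pos rfl]
        have h : ∑ i ∈ (Finset.univ : Finset (Fin 13)).erase 1,
            (if i = 1 then ss ^ α else (1 - ε) ^ α) =
            ∑ i ∈ (Finset.univ : Finset (Fin 13)).erase 1, (1 - ε) ^ α :=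
          Finset.sum_congr rfl fun i hi => if_neg (Finset.ne_of_mem_erase hi)
        rw [h, Finset.sum_const, Finset.card_erase_of_mem (Finset.mem_univ _), Finset.card_univ,
          Fintype.card_fin, nsmul_eq_mul]
        push_cast
        ring
    _ ≤ ∑ i : Fin 13, trm (xx ε yy) α none p13 (tl i) := by
        refine Finset.sum_le_sum fun i _ => ?_
        have h := le_trm (xx ε yy) α (s := none) (p := p13) (v := some (i, true)) (by simp)
        rw [norm_sub_rev] at h
        by_cases hi : i = 1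
        · subst hi
          rw [p13_dist1 hε] at h
          rw [if_pos rfl]
          exact h
        · rw [p13_dist hε hε2 hi] at h
          have h3 : p13 (some (i, true)) = tl i := by
            simp [p13, tl, hi]
          rw [h3] at h
          rw [if_neg hi]
          exact h
    _ = ∑ u ∈ Finset.univ.image tl, trm (xx ε yy) α none p13 u :=
        (Finset.sum_image (fun i _ j _ h => tl_inj h)).symm
    _ ≤ _ := by
        refine Finset.sum_le_sum_of_subset_of_nonneg (Finset.subset_univ _) fun u _ _ => ?_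
        exact trm_nonneg _ _ _ _ _

theorem over_twelve {α : ℝ} (hα : 0 ≤ α) : ENNReal.ofReal (12 + (47 / 100) ^ α) ≤ rho 3 α := by
  have hss : 0 < ss := by linarith [ss_ge]
  have hε : ∀ ε : ℝ, 0 < ε → ε ≤ 1 / 2 →
      ENNReal.ofReal (12 * (1 - ε) ^ α + ss ^ α) ≤ rho 3 α := by
    intro ε hε hε2
    obtain ⟨q, hq⟩ := exists_opt (xx ε yy) α none
    refine le_trans ?_ (le_sSup ⟨Option (Fin 13 × Bool), inferInstance, xx ε yy, none,
      p13, q, ?_, xx13_inj hε hε2, p13_mst hε hε2, hq, rfl⟩)
    · apply ENNReal.ofReal_le_ofReal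
      have hpos : 0 < energy (xx ε yy) α none q :=
        energy_pos (xx13_inj hε hε2) hq.1 (v := some (0, true)) (by simp)
      rw [le_div_iff₀ hpos]
      have h3 := p13_energy hε hε2 α
      have h4 := opt_le_one hε hε2 yy_norm hα hq
      have h5 : 0 ≤ 12 * (1 - ε) ^ α + ss ^ α := by
        have : 0 ≤ 1 - ε := by linarith
        positivity
      nlinarith
    · exact ⟨⟨none, some (0, true), by simp⟩⟩
  have ht : Tendsto (fun ε : ℝ => ENNReal.ofReal (12 * (1 - ε) ^ α + ss ^ α)) (𝓝[>] 0)
      (𝓝 (ENNReal.ofReal (12 + ss ^ α))) := by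
    have h3 : ContinuousAt (fun ε : ℝ => ENNReal.ofReal (12 * (1 - ε) ^ α + ss ^ α)) 0 := by
      refine ENNReal.continuous_ofReal.continuousAt.comp ?_
      refine ContinuousAt.add (continuousAt_const.mul ?_) continuousAt_const
      exact (continuousAt_const.sub continuousAt_id).rpow_const (Or.inl (by norm_num))
    have h4 := h3.tendsto.mono_left (nhdsWithin_le_nhds (s := Ioi 0))
    simpa using h4
  have h1 : ENNReal.ofReal (12 + ss ^ α) ≤ rho 3 α := by
    refine le_of_tendsto ht ?_
    filter_upwards [Ioc_mem_nhdsGT (show (0 : ℝ) < 1 / 2 by norm_num)] with ε he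
    exact hε ε he.1 he.2
  refine le_trans (ENNReal.ofReal_le_ofReal ?_) h1
  have := Real.rpow_le_rpow (by norm_num : (0 : ℝ) ≤ 47 / 100) ss_ge hα
  linarith

end Pool.Agent.Y968.MB
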