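import Pool.Agent.Y968.MB.Ball
import Pool.Agent.Y968.MB.Over

/-!
# The ratio is the maximum cost of a minimum spanning tree in the unit ball
-/

set_option autoImplicit false

namespace Pool.Agent.Y968.MB

open Set Filter Topology
open scoped ENNReal

theorem tops' {V K : Type} [Fintype V] {s : V} {q : V → V} (hq : Arb s q) (c : V → K)
    (hI : ∀ i, ∃ v, c v = i) :
    ∃ f : K → V, ∀ i, c (f i) = i ∧ ∀ v, c v = i → dep hq (f i) ≤ dep hq v := by
  classical
  have h : ∀ i, ∃ v, c v = i ∧ ∀ w, c w = i → dep hq v ≤ dep hq w := by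
    intro i
    obtain ⟨v0, h2⟩ := hI i
    obtain ⟨v, hv, hvm⟩ := Finset.exists_min_image (Finset.univ.filter fun v => c v = i)
      (dep hq) ⟨v0, by simp [h2]⟩
    exact ⟨v, (Finset.mem_filter.1 hv).2, fun w hw => hvm w
      (Finset.mem_filter.2 ⟨Finset.mem_univ _, hw⟩)⟩
  choose f hf using h
  exact ⟨f, hf⟩

theorem star_energy {V : Type} [Fintype V] {d : ℕ} {x : V → EuclideanSpace ℝ (Fin d)} {α : ℝ}
    {s : V} {B : ℝ} (hB : 0 ≤ B) (h : ∀ v, ‖x s - x v‖ ^ α ≤ B) :
    energy x α s (fun _ => s) ≤ B := by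
  classical
  rw [energy_eq, ← Finset.add_sum_erase _ _ (Finset.mem_univ s)]
  have h3 : ∑ u ∈ (Finset.univ : Finset V).erase s, trm x α s (fun _ => s) u ≤ 0 := by
    refine Finset.sum_nonpos fun u hu => ?_
    have hu' : s ≠ u := (Finset.ne_of_mem_erase hu).symm
    exact trm_le _ _ le_rfl fun v _ h => absurd h hu'
  have h5 : trm x α s (fun _ => s) s ≤ B := trm_le _ _ hB fun v _ _ => h v
  linarith

/-- the point at distance `ε` from `x u` in the direction of `x v` -/
noncomputable def XX {V : Type} {d : ℕ} (x : V → EuclideanSpace ℝ (Fin d)) (ε : ℝ) (w : V × V) :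
    EuclideanSpace ℝ (Fin d) :=
  x w.1 + (ε / ‖x w.2 - x w.1‖) • (x w.2 - x w.1)

section

variable {V : Type} {d : ℕ} {x : V → EuclideanSpace ℝ (Fin d)} {ε m : ℝ}

theorem XX_self (u : V) : XX x ε (u, u) = x u := by
  simp [XX]

theorem XX_near (hε : 0 < ε) (u v : V) : ‖XX x ε (u, v) - x u‖ ≤ ε := by
  unfold XX
  rw [add_sub_cancel_left, norm_smul, Real.norm_eq_abs, abs_of_nonneg (by positivity)]
  rcases (norm_nonneg (x v - x u)).eq_or_lt with h | h
  · rw [← h]
    simpa using hε.le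
  · rw [div_mul_cancel₀ _ h.ne']

theorem XX_dist (hε : 0 < ε) {u v : V} (h : 2 * ε ≤ ‖x u - x v‖) :
    ‖XX x ε (u, v) - XX x ε (v, u)‖ = ‖x u - x v‖ - 2 * ε := by
  have h0 : 0 < ‖x u - x v‖ := by linarith
  unfold XX
  rw [norm_sub_rev (x v) (x u)]
  set r := ‖x u - x v‖ with hr
  have h1 : x u + (ε / r) • (x v - x u) - (x v + (ε / r) • (x u - x v)) =
      (1 - 2 * (ε / r)) • (x u - x v) := by
    module
  dsimp only
  rw [h1, norm_smul, Real.norm_eq_abs, ← hr, abs_of_nonneg]
  · field_simp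
  · have : ε / r ≤ 1 / 2 := by
      rw [div_le_iff₀ h0]
      linarith
    linarith

/-- equality in the triangle inequality -/
theorem eq_XX (hε : 0 < ε) {u v : V} {a t : EuclideanSpace ℝ (Fin d)} (hne : 0 < ‖x u - x v‖)
    (h1 : ‖a - x u‖ ≤ ε) (h2 : ‖t - x v‖ ≤ ε) (h3 : ‖t - a‖ ≤ ‖x u - x v‖ - 2 * ε) :
    a - x u = (ε / ‖x u - x v‖) • (x v - x u) := by
  have h4 : ‖a - x v‖ ≤ ‖x u - x v‖ - ε := by
    have h5 : a - x v = (a - t) + (t - x v) := by abel
    calc ‖a - x v‖ ≤ ‖a - t‖ + ‖t - x v‖ := by rw [h5]; exact norm_add_le _ _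
      _ ≤ _ := by rw [norm_sub_rev a t]; linarith
  have h5 : ‖x u - x v‖ ≤ ‖a - x u‖ + ‖a - x v‖ := by
    have h6 : x u - x v = -(a - x u) + (a - x v) := by abel
    calc ‖x u - x v‖ ≤ ‖-(a - x u)‖ + ‖a - x v‖ := by rw [h6]; exact norm_add_le _ _
      _ = _ := by rw [norm_neg]
  have h6 : ‖a - x u‖ = ε := by linarith
  have h7 : ‖a - x v‖ = ‖x u - x v‖ - ε := by linarith
  have h8 : a = AffineMap.lineMap (x u) (x v) (ε / ‖x u - x v‖) := by
    apply eq_lineMap_of_dist_eq_mul_of_dist_eq_mul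
    · rw [dist_eq_norm, dist_eq_norm, norm_sub_rev, h6, div_mul_cancel₀ _ hne.ne']
    · rw [dist_eq_norm, dist_eq_norm, h7]
      field_simp
  have h9 : AffineMap.lineMap (x u) (x v) (ε / ‖x u - x v‖) =
      x u + (ε / ‖x u - x v‖) • (x v - x u) := by
    rw [AffineMap.lineMap_apply]
    simp [add_comm]
  rw [h8, h9, add_sub_cancel_left]

end

theorem exists_gap {V : Type} [Fintype V] {d : ℕ} {x : V → EuclideanSpace ℝ (Fin d)}
    (hx : Function.Injective x) : ∃ m : ℝ, 0 < m ∧ ∀ u v, u ≠ v → m ≤ ‖x u - x v‖ := by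
  classical
  by_cases h : (Finset.univ.filter fun w : V × V => w.1 ≠ w.2).Nonempty
  · obtain ⟨w, hw, hmin⟩ := Finset.exists_min_image _ (fun w : V × V => ‖x w.1 - x w.2‖) h
    refine ⟨‖x w.1 - x w.2‖, ?_, fun u v huv => ?_⟩
    · exact norm_pos_iff.2 (sub_ne_zero.2 fun h => (Finset.mem_filter.1 hw).2 (hx h))
    · exact hmin (u, v) (Finset.mem_filter.2 ⟨Finset.mem_univ _, huv⟩)
  · refine ⟨1, one_pos, fun u v huv => ?_⟩
    exact absurd ⟨(u, v), Finset.mem_filter.2 ⟨Finset.mem_univ _, huv⟩⟩ h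

theorem pert {V : Type} [Fintype V] {d : ℕ} {x : V → EuclideanSpace ℝ (Fin d)} {s : V}
    {p : V → V} (hs : x s = 0) (h1 : ∀ v, ‖x v‖ ≤ 1)
    (hp : IsMST x s p) {α : ℝ} (hα : 0 < α) {m : ℝ} (hm : 0 < m)
    (hgap : ∀ u v, u ≠ v → m ≤ ‖x u - x v‖) {v0 : V} (hv0 : v0 ≠ s) {ε : ℝ} (hε : 0 < ε)
    (hεm : 8 * ε ≤ m) :
    ENNReal.ofReal ((1 - 2 * ε / m) ^ α * (∑ v, ‖x v - x (p v)‖ ^ α) / (1 + ε) ^ α) ≤
      rho d α := by
  classical
  let V' : Type := {z : EuclideanSpace ℝ (Fin d) // ∃ w : V × V, XX x ε w = z}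
  have hfin : Finite V' := Set.finite_range (XX x ε)
  let _ : Fintype V' := Fintype.ofFinite V'
  let x' : V' → EuclideanSpace ℝ (Fin d) := fun z => z.1
  have hx' : Function.Injective x' := Subtype.val_injective
  let mk : V → V → V' := fun u v => ⟨XX x ε (u, v), (u, v), rfl⟩
  have hcl : ∀ z : V', ∃ u : V, ‖z.1 - x u‖ ≤ ε := by
    rintro ⟨z, ⟨u, v⟩, rfl⟩
    exact ⟨u, XX_near hε u v⟩
  choose cl hcl using hcl
  have hclu : ∀ (z : V') (u : V), ‖z.1 - x u‖ ≤ ε → cl z = u := by
    intro z u hz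
    by_contra hne
    have h2 := hgap _ _ hne
    have h3 : ‖x (cl z) - x u‖ ≤ 2 * ε := by
      have h4 : x (cl z) - x u = -(z.1 - x (cl z)) + (z.1 - x u) := by abel
      calc ‖x (cl z) - x u‖ ≤ ‖-(z.1 - x (cl z))‖ + ‖z.1 - x u‖ := by
            rw [h4]; exact norm_add_le _ _
        _ ≤ _ := by rw [norm_neg]; linarith [hcl z]
    linarith
  have hmk : ∀ u v, cl (mk u v) = u := fun u v => hclu _ _ (XX_near hε u v)
  let r : V' := mk s s
  have hr0 : x' r = 0 := by
    show XX x ε (s, s) = 0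
    rw [XX_self, hs]
  have hclr : cl r = s := hmk s s
  -- distances inside and between clusters
  have hin : ∀ z z' : V', cl z = cl z' → ‖x' z - x' z'‖ ≤ 2 * ε := by
    intro z z' h
    have h2 := hcl z
    have h3 := hcl z'
    rw [← h] at h3
    have h4 : x' z - x' z' = (z.1 - x (cl z)) + -(z'.1 - x (cl z)) := by
      show z.1 - z'.1 = _
      abel
    calc ‖x' z - x' z'‖ ≤ ‖z.1 - x (cl z)‖ + ‖-(z'.1 - x (cl z))‖ := by
          rw [h4]; exact norm_add_le _ _
      _ ≤ _ := by rw [norm_neg]; linarith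
  have hout : ∀ z z' : V', ‖x (cl z) - x (cl z')‖ - 2 * ε ≤ ‖x' z - x' z'‖ := by
    intro z z'
    have h2 := hcl z
    have h3 := hcl z'
    have h4 : x (cl z) - x (cl z') = -(z.1 - x (cl z)) + (z.1 - z'.1) + (z'.1 - x (cl z')) := by
      abel
    have h5 : ‖x (cl z) - x (cl z')‖ ≤ ‖z.1 - x (cl z)‖ + ‖z.1 - z'.1‖ +
        ‖z'.1 - x (cl z')‖ := by
      rw [h4]
      refine (norm_add_le _ _).trans (add_le_add ((norm_add_le _ _).trans ?_) le_rfl)
      rw [norm_neg]
    show _ ≤ ‖z.1 - z'.1‖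
    linarith
  obtain ⟨p', hp'⟩ := exists_mst x' r
  obtain ⟨q', hq'⟩ := exists_opt x' α r
  obtain ⟨f, hf⟩ := tops' hp'.1 cl (fun v => ⟨mk v v, hmk v v⟩)
  have hfr : ∀ v, v ≠ s → f v ≠ r := by
    intro v hv h
    have h2 := (hf v).1
    rw [h, hclr] at h2
    exact hv h2.symm
  have hclp : ∀ v, v ≠ s → cl (p' (f v)) ≠ v := by
    intro v hv h
    have h2 := (hf v).2 _ h
    have h3 := dep_lt hp'.1 (hfr v hv)
    omega
  -- the induced tree
  let q : V → V := fun v => if v = s then s else cl (p' (f v))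
  have hq : Arb s q := by
    refine ⟨by simp [q], fun v => ?_⟩
    induction hn : dep hp'.1 (f v) using Nat.strong_induction_on generalizing v with
    | _ n ih =>
      by_cases hv : v = s
      · exact ⟨0, hv⟩
      · have h2 : dep hp'.1 (f (q v)) < n := by
          have h3 : q v = cl (p' (f v)) := by simp only [q, if_neg hv]
          have h4 := (hf (q v)).2 (p' (f v)) h3.symm
          have h5 := dep_lt hp'.1 (hfr v hv)
          omega
        obtain ⟨k, hk⟩ := ih _ h2 (q v) rfl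
        exact ⟨k + 1, hk⟩
  -- the basic facts about the edge above `f v`
  have hlong : ∀ v, v ≠ s → 2 * ε < ‖x' (f v) - x' (p' (f v))‖ := by
    intro v hv
    have h2 := hout (f v) (p' (f v))
    have h3 := hgap _ _ (hclp v hv).symm
    rw [(hf v).1] at h2
    linarith
  have hnA : ∀ v, v ≠ s → ¬ An p' (f v) (p' (f v)) := by
    intro v hv h
    have h2 : An p' (p' (f v)) (f v) := ⟨1, rfl⟩
    exact arb_ne hp'.1 (hfr v hv) (An.antisymm hp'.1 h h2).symm
  have hin1 : ∀ v, v ≠ s → ∀ z, cl z = v → An p' (f v) z := by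
    intro v hv z hz
    by_contra h
    have h2 := exchange hp' (hfr v hv) (An.refl p' (f v)) h
    have h3 := hin (f v) z (by rw [(hf v).1, hz])
    have h4 := hlong v hv
    linarith
  have hout1 : ∀ v, v ≠ s → ∀ z b, ¬ An p' (f v) b → cl z = cl b → ¬ An p' (f v) z := by
    intro v hv z b hb hz h
    have h2 := exchange hp' (hfr v hv) h hb
    have h3 := hin z b hz
    have h4 := hlong v hv
    linarith
  -- bound from the closest pair
  have hpair : ∀ v, v ≠ s → ∀ w b, w ≠ v → ¬ An p' (f v) b → cl b = w →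
      ‖x' (f v) - x' (p' (f v))‖ ≤ ‖x v - x w‖ - 2 * ε := by
    intro v hv w b hwv hb hbw
    have h2 := exchange hp' (hfr v hv) (hin1 v hv (mk v w) (hmk v w))
      (hout1 v hv (mk w v) b hb (by rw [hmk, hbw]))
    have h3 : ‖x' (mk v w) - x' (mk w v)‖ = ‖x v - x w‖ - 2 * ε := by
      refine XX_dist hε ?_
      have := hgap v w hwv.symm
      linarith
    rw [h3] at h2
    exact h2
  have htails : ∀ v w, v ≠ s → w ≠ s → p' (f v) = p' (f w) → v = w := by
    intro v w hv hw ha
    by_contra hne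
    set a := p' (f v) with hadef
    set u := cl a with hu
    have huv : u ≠ v := hclp v hv
    have huw : u ≠ w := by
      have := hclp w hw
      rw [← ha] at this
      exact this
    have hsib : ∀ v w, v ≠ s → w ≠ s → v ≠ w → p' (f v) = p' (f w) → ¬ An p' (f v) (f w) := by
      intro v w hv hw hne ha h
      have h2 : f w ≠ f v := by
        intro h3
        apply hne
        rw [← (hf v).1, ← (hf w).1, h3]
      have h3 := h.parent h2
      rw [← ha] at h3
      exact hnA v hv h3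
    have e1 := hpair v hv u a huv (hnA v hv) rfl
    have e2 := hpair v hv w (f w) (Ne.symm hne) (hsib v w hv hw hne ha) (hf w).1
    have e3 : ‖x' (f w) - x' (p' (f w))‖ ≤ ‖x w - x u‖ - 2 * ε :=
      hpair w hw u (p' (f w)) huw (hnA w hw) (by rw [← ha])
    have e4 := hpair w hw v (f v) hne (hsib w v hw hv (Ne.symm hne) ha.symm) (hf v).1
    have l1 := hout (f v) a
    rw [(hf v).1] at l1
    have l2 := hout (f w) (p' (f w))
    rw [(hf w).1, ← ha] at l2
    have g1 := hgap u v huv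
    have g2 := hgap u w huw
    have n1 := norm_sub_rev (x u) (x v)
    have n2 := norm_sub_rev (x u) (x w)
    have n3 := norm_sub_rev (x v) (x w)
    have k1 : a.1 - x u = (ε / ‖x u - x v‖) • (x v - x u) := by
      refine eq_XX hε (by linarith) (hcl a) (t := (f v).1) ?_ ?_
      · have := hcl (f v)
        rwa [(hf v).1] at this
      · rw [n1]
        exact e1
    have k2 : a.1 - x u = (ε / ‖x u - x w‖) • (x w - x u) := by
      refine eq_XX hε (by linarith) (hcl a) (t := (f w).1) ?_ ?_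
      · have := hcl (f w)
        rwa [(hf w).1] at this
      · rw [n2]
        rw [← ha] at e3
        exact e3
    set A := ‖x u - x v‖ with hA
    set B := ‖x u - x w‖ with hB
    have hA0 : 0 < A := by linarith
    have hB0 : 0 < B := by linarith
    have j1 : x v - x u = (A / ε) • (a.1 - x u) := by
      rw [k1, smul_smul]
      have : A / ε * (ε / A) = 1 := by field_simp
      rw [this, one_smul]
    have j2 : x w - x u = (B / ε) • (a.1 - x u) := by
      rw [k2, smul_smul]
      have : B / ε * (ε / B) = 1 := by field_simp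
      rw [this, one_smul]
    have j3 : ‖a.1 - x u‖ = ε := by
      rw [k1, norm_smul, norm_sub_rev (x v) (x u), Real.norm_eq_abs,
        abs_of_pos (by positivity), ← hA]
      field_simp
    have j4 : ‖x v - x w‖ = |A - B| := by
      have : x v - x w = ((A - B) / ε) • (a.1 - x u) := by
        rw [sub_div, sub_smul, ← j1, ← j2]
        abel
      rw [this, norm_smul, j3, Real.norm_eq_abs, abs_div, abs_of_pos hε]
      field_simp
    have i1 : A ≤ ‖x v - x w‖ := by
      have l1' : ‖x v - x u‖ - 2 * ε ≤ ‖x' (f v) - x' a‖ := l1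
      linarith
    have i2 : B ≤ ‖x v - x w‖ := by
      have l2' : ‖x w - x u‖ - 2 * ε ≤ ‖x' (f w) - x' a‖ := l2
      rw [← ha] at e4
      linarith
    rw [j4] at i1 i2
    rcases le_total A B with hAB | hAB
    · rw [abs_of_nonpos (by linarith)] at i2
      linarith
    · rw [abs_of_nonneg (by linarith)] at i1
      linarith
  -- energy of the minimum spanning tree
  have hθ : 0 ≤ 1 - 2 * ε / m := by
    have : 2 * ε / m ≤ 1 := by
      rw [div_le_one hm]
      linarith
    linarith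
  have hE : (1 - 2 * ε / m) ^ α * (∑ v, ‖x v - x (p v)‖ ^ α) ≤ energy x' α r p' := by
    calc (1 - 2 * ε / m) ^ α * (∑ v, ‖x v - x (p v)‖ ^ α)
        ≤ (1 - 2 * ε / m) ^ α * (∑ v, ‖x v - x (q v)‖ ^ α) :=
          mul_le_mul_of_nonneg_left (mst_opt hp hq hα) (by positivity)
      _ = ∑ v ∈ Finset.univ.erase s, ((1 - 2 * ε / m) * ‖x v - x (q v)‖) ^ α := by
          rw [← Finset.add_sum_erase _ _ (Finset.mem_univ s), hq.1, sub_self, norm_zero,
            Real.zero_rpow hα.ne', zero_add, Finset.mul_sum]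
          refine Finset.sum_congr rfl fun v _ => ?_
          rw [Real.mul_rpow hθ (norm_nonneg _)]
      _ ≤ ∑ v ∈ Finset.univ.erase s, trm x' α r p' (p' (f v)) := by
          refine Finset.sum_le_sum fun v hv => ?_
          have hvs := Finset.ne_of_mem_erase hv
          refine le_trans ?_ (le_trm x' α (s := r) (p := p') (hfr v hvs))
          refine Real.rpow_le_rpow (by positivity) ?_ hα.le
          have h2 := hout (f v) (p' (f v))
          rw [(hf v).1] at h2
          have h3 : q v = cl (p' (f v)) := by simp only [q, if_neg hvs]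
          rw [← h3] at h2
          have h4 := hgap v (q v) (by rw [h3]; exact (hclp v hvs).symm)
          rw [norm_sub_rev (x' (p' (f v)))]
          refine le_trans ?_ h2
          have h5 : 2 * ε ≤ 2 * ε / m * ‖x v - x (q v)‖ := by
            rw [div_mul_eq_mul_div, le_div_iff₀ hm]
            nlinarith
          linarith
      _ = ∑ z ∈ (Finset.univ.erase s).image (fun v => p' (f v)), trm x' α r p' z := by
          refine (Finset.sum_image ?_).symm
          intro v hv w hw h
          exact htails v w (Finset.ne_of_mem_erase hv) (Finset.ne_of_mem_erase hw) h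
      _ ≤ energy x' α r p' := by
          rw [energy_eq]
          exact Finset.sum_le_sum_of_subset_of_nonneg (Finset.subset_univ _)
            fun u _ _ => trm_nonneg _ _ _ _ _
  have hO : energy x' α r q' ≤ (1 + ε) ^ α := by
    refine (hq'.2 (fun _ => r) ⟨rfl, fun v => ⟨1, rfl⟩⟩).trans ?_
    refine star_energy (by positivity) fun z => ?_
    refine Real.rpow_le_rpow (norm_nonneg _) ?_ hα.le
    rw [hr0, zero_sub, norm_neg]
    have h2 : x' z = (z.1 - x (cl z)) + x (cl z) := by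
      show z.1 = _
      abel
    calc ‖x' z‖ ≤ ‖z.1 - x (cl z)‖ + ‖x (cl z)‖ := by rw [h2]; exact norm_add_le _ _
      _ ≤ _ := by linarith [hcl z, h1 (cl z)]
  have hv0' : mk v0 v0 ≠ r := by
    intro h
    have h2 := hmk v0 v0
    rw [h, hclr] at h2
    exact hv0 h2.symm
  have hOpos : 0 < energy x' α r q' := energy_pos hx' hq'.1 hv0'
  refine le_trans ?_ (le_sSup ⟨V', inferInstance, x', r, p', q', ⟨⟨mk v0 v0, r, hv0'⟩⟩, hx',
    hp', hq', rfl⟩)
  apply ENNReal.ofReal_le_ofReal
  have hc : 0 ≤ (1 - 2 * ε / m) ^ α * (∑ v, ‖x v - x (p v)‖ ^ α) :=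
    mul_nonneg (by positivity) (Finset.sum_nonneg fun v _ => by positivity)
  calc (1 - 2 * ε / m) ^ α * (∑ v, ‖x v - x (p v)‖ ^ α) / (1 + ε) ^ α
      ≤ (1 - 2 * ε / m) ^ α * (∑ v, ‖x v - x (p v)‖ ^ α) / energy x' α r q' :=
        div_le_div_of_nonneg_left hc hOpos hO
    _ ≤ energy x' α r p' / energy x' α r q' := div_le_div_of_nonneg_right hE hOpos.le

theorem ballMax_le_rho (d : ℕ) {α : ℝ} (hα : 0 < α) : ballMax d α ≤ rho d α := by
  classical
  refine sSup_le ?_
  rintro _ ⟨V, _, x, s, p, hx, hs, h1, hp, rfl⟩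
  by_cases hnt : ∃ v0 : V, v0 ≠ s
  · obtain ⟨v0, hv0⟩ := hnt
    obtain ⟨m, hm, hgap⟩ := exists_gap hx
    set c := ∑ v, ‖x v - x (p v)‖ ^ α with hc
    have ht : Tendsto (fun ε : ℝ => ENNReal.ofReal ((1 - 2 * ε / m) ^ α * c / (1 + ε) ^ α))
        (𝓝[>] 0) (𝓝 (ENNReal.ofReal c)) := by
      have h3 : ContinuousAt (fun ε : ℝ =>
          ENNReal.ofReal ((1 - 2 * ε / m) ^ α * c / (1 + ε) ^ α)) 0 := by
        refine ENNReal.continuous_ofReal.continuousAt.comp ?_
        refine ContinuousAt.div (ContinuousAt.mul ?_ continuousAt_const) ?_ (by simp)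
        · refine ContinuousAt.rpow_const ?_ (Or.inl (by simp))
          fun_prop
        · refine ContinuousAt.rpow_const ?_ (Or.inl (by simp))
          fun_prop
      have h4 := h3.tendsto.mono_left (nhdsWithin_le_nhds (s := Ioi 0))
      simpa using h4
    refine le_of_tendsto ht ?_
    filter_upwards [Ioc_mem_nhdsGT (show (0 : ℝ) < m / 8 by positivity)] with ε he
    exact pert hs h1 hp hα hm hgap hv0 he.1 (by linarith [he.2])
  · push Not at hnt
    have h0 : ∑ v, ‖x v - x (p v)‖ ^ α = 0 := by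
      refine Finset.sum_eq_zero fun v _ => ?_
      rw [hnt v, hnt (p s), sub_self, norm_zero, Real.zero_rpow hα.ne']
    rw [h0]
    simp

theorem rho_eq_ballMax (d : ℕ) {α : ℝ} (hα : 0 < α) : rho d α = ballMax d α :=
  le_antisymm (rho_le_ballMax d hα) (ballMax_le_rho d hα)

end Pool.Agent.Y968.MB
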