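import Pool.Agent.Y968.MB.Lower

/-!
# Thirteen points on the unit sphere with one close pair, and the resulting instance
-/

set_option autoImplicit false

namespace Pool.Agent.Y968.MB

open Set Filter Topology
open scoped ENNReal

/-- first coordinates -/
def ca : Fin 13 → ℤ :=
  ![-45640000, 12140000, -380000, -162160000, 154000, 66900000, -5413600, 6550000, 81530000, -40700000, -6466000, 86370000, 2128000]
/-- second coordinates -/
def cb : Fin 13 → ℤ :=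
  ![-89260000, -89840000, -5352000, -60660000, 2650000, -6080000, 4555200, 49410000, -47530000, -1760000, 2782000, 49250000, 660000]
/-- third coordinates -/
def cc : Fin 13 → ℤ :=
  ![74874107, 79453487, -2200731, -25061247, 1119223, -88718559, -871443, -37578747, 5468791, -95851031, 8761283, -573303, 3689751]
/-- denominators -/
def cn : Fin 13 → ℤ :=
  ![125125893, 120546513, 5799269, 174938753, 2880777, 111281441, 7128557, 62421253, 94531209, 104148969, 11238717, 99426697, 4310249]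

theorem cn_pos : ∀ i, 0 < cn i := by decide +kernel

theorem c_unit : ∀ i, ca i ^ 2 + cb i ^ 2 + cc i ^ 2 = cn i ^ 2 := by decide +kernel

theorem c_far : ∀ i j, i ≠ j → ¬ (i = 0 ∧ j = 1) → ¬ (i = 1 ∧ j = 0) →
    2 * (ca i * ca j + cb i * cb j + cc i * cc j) ≤ cn i * cn j := by decide +kernel

theorem c_near : 20000 * (ca 0 * ca 1 + cb 0 * cb 1 + cc 0 * cc 1) ≤ 17791 * (cn 0 * cn 1) := by
  decide +kernel

theorem c_near' : 7 * (cn 0 * cn 1) ≤ 8 * (ca 0 * ca 1 + cb 0 * cb 1 + cc 0 * cc 1) := by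
  decide +kernel

/-- the thirteen points -/
noncomputable def yy (i : Fin 13) : EuclideanSpace ℝ (Fin 3) :=
  !₂[(ca i : ℝ) / cn i, (cb i : ℝ) / cn i, (cc i : ℝ) / cn i]

theorem yy_norm (i : Fin 13) : ‖yy i‖ = 1 := by
  have h0 : (0 : ℝ) < cn i := by exact_mod_cast cn_pos i
  have h1 : (ca i : ℝ) ^ 2 + cb i ^ 2 + cc i ^ 2 = cn i ^ 2 := by exact_mod_cast c_unit i
  have h2 : ‖yy i‖ ^ 2 = 1 := by
    rw [EuclideanSpace.norm_sq_eq, Fin.sum_univ_three]
    simp only [yy, Real.norm_eq_abs, sq_abs]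
    simp only [Matrix.cons_val_zero, Matrix.cons_val_one, Matrix.cons_val]
    field_simp
    linarith
  have h3 := norm_nonneg (yy i)
  nlinarith

theorem yy_dist (i j : Fin 13) : ‖yy i - yy j‖ ^ 2 =
    2 - 2 * ((ca i * ca j + cb i * cb j + cc i * cc j : ℤ) : ℝ) / (cn i * cn j) := by
  have h0 : (0 : ℝ) < cn i := by exact_mod_cast cn_pos i
  have h0' : (0 : ℝ) < cn j := by exact_mod_cast cn_pos j
  have h1 : (ca i : ℝ) ^ 2 + cb i ^ 2 + cc i ^ 2 = cn i ^ 2 := by exact_mod_cast c_unit i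
  have h1' : (ca j : ℝ) ^ 2 + cb j ^ 2 + cc j ^ 2 = cn j ^ 2 := by exact_mod_cast c_unit j
  have e1 : ((ca i : ℝ) / cn i) ^ 2 + ((cb i : ℝ) / cn i) ^ 2 + ((cc i : ℝ) / cn i) ^ 2 = 1 := by
    field_simp
    linarith
  have e2 : ((ca j : ℝ) / cn j) ^ 2 + ((cb j : ℝ) / cn j) ^ 2 + ((cc j : ℝ) / cn j) ^ 2 = 1 := by
    field_simp
    linarith
  rw [EuclideanSpace.norm_sq_eq, Fin.sum_univ_three]
  simp only [yy, Real.norm_eq_abs, sq_abs]
  simp only [PiLp.sub_apply, Matrix.cons_val_zero, Matrix.cons_val_one, Matrix.cons_val]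
  have e3 : 2 * ((ca i * ca j + cb i * cb j + cc i * cc j : ℤ) : ℝ) / (cn i * cn j) =
      2 * ((ca i : ℝ) / cn i * (ca j / cn j) + (cb i : ℝ) / cn i * (cb j / cn j) +
        (cc i : ℝ) / cn i * (cc j / cn j)) := by
    push_cast
    field_simp
  rw [e3]
  linarith

theorem yy_far {i j : Fin 13} (h1 : i ≠ j) (h2 : ¬ (i = 0 ∧ j = 1)) (h3 : ¬ (i = 1 ∧ j = 0)) :
    1 ≤ ‖yy i - yy j‖ := by
  have h0 : (0 : ℝ) < cn i := by exact_mod_cast cn_pos i
  have h0' : (0 : ℝ) < cn j := by exact_mod_cast cn_pos j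
  have h4 : (2 : ℝ) * ((ca i * ca j + cb i * cb j + cc i * cc j : ℤ) : ℝ) ≤ cn i * cn j := by
    exact_mod_cast c_far i j h1 h2 h3
  have h5 := yy_dist i j
  have h6 : 2 * ((ca i * ca j + cb i * cb j + cc i * cc j : ℤ) : ℝ) / (cn i * cn j) ≤ 1 := by
    rw [div_le_one (by positivity)]
    exact h4
  have h7 : 1 ≤ ‖yy i - yy j‖ ^ 2 := by linarith
  have h8 := norm_nonneg (yy i - yy j)
  nlinarith

/-- the distance of the close pair -/
noncomputable def ss : ℝ := ‖yy 0 - yy 1‖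

theorem ss_ge : 47 / 100 ≤ ss := by
  have h0 : (0 : ℝ) < cn 0 := by exact_mod_cast cn_pos 0
  have h0' : (0 : ℝ) < cn 1 := by exact_mod_cast cn_pos 1
  have h4 : (20000 : ℝ) * ((ca 0 * ca 1 + cb 0 * cb 1 + cc 0 * cc 1 : ℤ) : ℝ) ≤
      17791 * (cn 0 * cn 1) := by exact_mod_cast c_near
  have h5 : ss ^ 2 = _ := yy_dist 0 1
  have h6 : 2 * ((ca 0 * ca 1 + cb 0 * cb 1 + cc 0 * cc 1 : ℤ) : ℝ) / (cn 0 * cn 1) ≤
      17791 / 10000 := by
    rw [div_le_iff₀ (by positivity)]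
    linarith
  have h8 : 0 ≤ ss := norm_nonneg _
  nlinarith

theorem ss_le : ss ≤ 1 / 2 := by
  have h0 : (0 : ℝ) < cn 0 := by exact_mod_cast cn_pos 0
  have h0' : (0 : ℝ) < cn 1 := by exact_mod_cast cn_pos 1
  have h4 : 7 * ((cn 0 : ℝ) * cn 1) ≤
      8 * ((ca 0 * ca 1 + cb 0 * cb 1 + cc 0 * cc 1 : ℤ) : ℝ) := by exact_mod_cast c_near'
  have h5 : ss ^ 2 = _ := yy_dist 0 1
  have h6 : 7 / 4 ≤ 2 * ((ca 0 * ca 1 + cb 0 * cb 1 + cc 0 * cc 1 : ℤ) : ℝ) / (cn 0 * cn 1) := by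
    rw [le_div_iff₀ (by positivity)]
    linarith
  have h8 : 0 ≤ ss := norm_nonneg _
  nlinarith

end Pool.Agent.Y968.MB
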