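import Pool.Agent.Y968.MB.Defs

/-!
# Exchange and counting for minimum spanning trees
-/

set_option autoImplicit false

namespace Pool.Agent.Y968.MB

/-- `z` is an ancestor of `v` -/
def An {V : Type} (p : V → V) (z v : V) : Prop := ∃ k : ℕ, p^[k] v = z

theorem An.refl {V : Type} (p : V → V) (z : V) : An p z z := ⟨0, rfl⟩

theorem An.of_parent {V : Type} {p : V → V} {z v : V} (h : An p z (p v)) : An p z v := by
  obtain ⟨k, hk⟩ := h
  exact ⟨k + 1, hk⟩

theorem An.parent {V : Type} {p : V → V} {z v : V} (h : An p z v) (hne : v ≠ z) :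
    An p z (p v) := by
  obtain ⟨k, hk⟩ := h
  cases k with
  | zero => exact absurd hk hne
  | succ k => exact ⟨k, hk⟩

open Classical in
/-- the depth of a vertex -/
noncomputable def dep {V : Type} {s : V} {p : V → V} (h : Arb s p) (v : V) : ℕ := Nat.find (h.2 v)

theorem dep_lt {V : Type} {s : V} {p : V → V} (h : Arb s p) {v : V} (hv : v ≠ s) :
    dep h (p v) < dep h v := by
  classical
  unfold dep
  have h1 := Nat.find_spec (h.2 v)
  obtain ⟨k, hk⟩ : ∃ k, Nat.find (h.2 v) = k + 1 := by
    refine Nat.exists_eq_succ_of_ne_zero fun h0 => ?_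
    rw [h0] at h1
    exact hv h1
  rw [hk] at h1
  rw [hk]
  exact Nat.lt_succ_of_le (Nat.find_min' _ h1)

theorem iter_root {V : Type} {s : V} {p : V → V} (h : Arb s p) (k : ℕ) : p^[k] s = s := by
  induction k with
  | zero => rfl
  | succ k ih => rw [Function.iterate_succ_apply, h.1, ih]

theorem An.dep_le {V : Type} {s : V} {p : V → V} (h : Arb s p) {z v : V} (hz : An p z v) :
    z = v ∨ dep h z < dep h v := by
  obtain ⟨k, hk⟩ := hz
  induction k generalizing v with
  | zero => exact Or.inl hk.symm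
  | succ k ih =>
    by_cases hv : v = s
    · subst hv
      rw [iter_root h] at hk
      exact Or.inl hk.symm
    · have h1 := dep_lt h hv
      rcases ih (v := p v) hk with h2 | h2
      · right
        rw [h2]
        exact h1
      · exact Or.inr (h2.trans h1)

theorem An.antisymm {V : Type} {s : V} {p : V → V} (h : Arb s p) {z v : V} (h1 : An p z v)
    (h2 : An p v z) : z = v := by
  rcases h1.dep_le h with h3 | h3
  · exact h3
  · rcases h2.dep_le h with h4 | h4
    · exact h4.symm
    · omega

theorem bfs {V : Type} (H : SimpleGraph V) (hc : H.Connected) (s : V) :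
    ∃ q : V → V, q s = s ∧ ∀ v, v ≠ s → H.Adj v (q v) ∧ H.dist (q v) s < H.dist v s := by
  classical
  have h : ∀ v, ∃ u, (v = s → u = s) ∧ (v ≠ s → H.Adj v u ∧ H.dist u s < H.dist v s) := by
    intro v
    by_cases hv : v = s
    · exact ⟨s, fun _ => rfl, fun h => absurd hv h⟩
    · obtain ⟨w, hw⟩ := hc.exists_walk_length_eq_dist v s
      cases w with
      | nil => exact absurd rfl hv
      | cons hadj w' =>
        refine ⟨_, fun h => absurd h hv, fun _ => ⟨hadj, ?_⟩⟩
        rw [← hw, SimpleGraph.Walk.length_cons]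
        exact Nat.lt_succ_of_le (SimpleGraph.dist_le w')
  choose q h1 h2 using h
  exact ⟨q, h1 s rfl, h2⟩

/-- **exchange**: in a minimum spanning tree the edge above `w` is not longer than any segment
between a descendant and a non-descendant of `w`. -/
theorem exchange {V : Type} [Fintype V] {d : ℕ} {x : V → EuclideanSpace ℝ (Fin d)} {s : V}
    {p : V → V} (h : IsMST x s p) {w a b : V} (hw : w ≠ s) (ha : An p w a) (hb : ¬ An p w b) :
    ‖x w - x (p w)‖ ≤ ‖x a - x b‖ := by
  classical
  obtain ⟨hp, hmin⟩ := h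
  have hab : a ≠ b := by rintro rfl; exact hb ha
  let F : V → V × V := fun z => if z = w then (a, b) else (z, p z)
  let H : SimpleGraph V :=
    { Adj := fun u v => u ≠ v ∧ ∃ z, F z = (u, v) ∨ F z = (v, u)
      symm := ⟨by
        rintro u v ⟨h1, z, h2⟩
        exact ⟨h1.symm, z, h2.symm⟩⟩
      loopless := ⟨by
        rintro u ⟨h1, _⟩
        exact h1 rfl⟩ }
  have hstep : ∀ v, v ≠ w → H.Reachable v (p v) := by
    intro v hv
    by_cases he : v = p v
    · rw [← he]
    · refine SimpleGraph.Adj.reachable ⟨he, v, Or.inl ?_⟩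
      simp only [F, if_neg hv]
  have hW : ∀ v, An p w v → H.Reachable v w := by
    rintro v ⟨k, hk⟩
    induction k generalizing v with
    | zero => rw [show v = w from hk]
    | succ k ih =>
      by_cases hv : v = w
      · rw [hv]
      · exact (hstep v hv).trans (ih (p v) hk)
  have hS : ∀ v, ¬ An p w v → H.Reachable v s := by
    intro v hv
    obtain ⟨k, hk⟩ := hp.2 v
    induction k generalizing v with
    | zero => rw [show v = s from hk]
    | succ k ih =>
      have hvw : v ≠ w := by rintro rfl; exact hv (An.refl p v)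
      exact (hstep v hvw).trans (ih (p v) (fun h => hv h.of_parent) hk)
  have hadj : H.Adj a b := ⟨hab, w, Or.inl (by simp only [F, if_pos])⟩
  have hall : ∀ v, H.Reachable v s := by
    intro v
    by_cases hv : An p w v
    · exact ((hW v hv).trans (hW a ha).symm).trans (hadj.reachable.trans (hS b hb))
    · exact hS v hv
  have hconn : H.Connected := by
    have : Nonempty V := ⟨s⟩
    exact SimpleGraph.Connected.mk fun u v => (hall u).trans (hall v).symm
  obtain ⟨q, hq1, hq2⟩ := bfs H hconn s
  have hq : Arb s q := by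
    refine ⟨hq1, fun v => ?_⟩
    induction hn : H.dist v s using Nat.strong_induction_on generalizing v with
    | _ n ih =>
      by_cases hv : v = s
      · exact ⟨0, hv⟩
      · obtain ⟨_, h2⟩ := hq2 v hv
        obtain ⟨k, hk⟩ := ih _ (hn ▸ h2) (q v) rfl
        exact ⟨k + 1, hk⟩
  -- the edges of the new tree
  have hz : ∀ v, ∃ z, v ≠ s → (F z = (v, q v) ∨ F z = (q v, v)) := by
    intro v
    by_cases hv : v = s
    · exact ⟨s, fun h => absurd hv h⟩
    · obtain ⟨⟨_, z, h2⟩, _⟩ := hq2 v hv
      exact ⟨z, fun _ => h2⟩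
  choose z hz using hz
  have hinj : Set.InjOn z ((Finset.univ.erase s : Finset V) : Set V) := by
    intro v hv v' hv' hzz
    have hv1 : v ≠ s := Finset.ne_of_mem_erase hv
    have hv1' : v' ≠ s := Finset.ne_of_mem_erase hv'
    have h1 := hz v hv1
    have h2 := hz v' hv1'
    rw [← hzz] at h2
    have h3 := (hq2 v hv1).2
    have h4 := (hq2 v' hv1').2
    rcases h1 with h1 | h1 <;> rcases h2 with h2 | h2 <;> rw [h1] at h2
    · exact congrArg Prod.fst h2
    · have e1 : v = q v' := congrArg Prod.fst h2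
      have e2 : q v = v' := congrArg Prod.snd h2
      rw [e2] at h3
      rw [← e1] at h4
      omega
    · have e1 : q v = v' := congrArg Prod.fst h2
      have e2 : v = q v' := congrArg Prod.snd h2
      rw [e1] at h3
      rw [← e2] at h4
      omega
    · exact congrArg Prod.snd h2
  let c : V → ℝ := fun z => ‖x (F z).1 - x (F z).2‖
  have hlen : len x q ≤ ∑ z, c z := by
    unfold len
    rw [← Finset.add_sum_erase _ _ (Finset.mem_univ s), hq1, sub_self, norm_zero, zero_add]
    calc ∑ v ∈ Finset.univ.erase s, ‖x v - x (q v)‖ = ∑ v ∈ Finset.univ.erase s, c (z v) := by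
          refine Finset.sum_congr rfl fun v hv => ?_
          rcases hz v (Finset.ne_of_mem_erase hv) with h1 | h1
          · simp only [c, h1]
          · simp only [c, h1]
            exact norm_sub_rev _ _
      _ = ∑ y ∈ (Finset.univ.erase s).image z, c y := (Finset.sum_image hinj).symm
      _ ≤ ∑ z, c z := Finset.sum_le_sum_of_subset_of_nonneg (Finset.subset_univ _)
          fun _ _ _ => norm_nonneg _
  have h1 := hmin q hq
  have h2 : ∑ z, c z = ‖x a - x b‖ + ∑ z ∈ Finset.univ.erase w, ‖x z - x (p z)‖ := by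
    rw [← Finset.add_sum_erase _ _ (Finset.mem_univ w)]
    congr 1
    · simp only [c, F, if_pos]
    · refine Finset.sum_congr rfl fun y hy => ?_
      simp only [c, F, if_neg (Finset.ne_of_mem_erase hy)]
  have h3 : len x p = ‖x w - x (p w)‖ + ∑ z ∈ Finset.univ.erase w, ‖x z - x (p z)‖ := by
    unfold len
    rw [← Finset.add_sum_erase _ _ (Finset.mem_univ w)]
  linarith

open Classical in
/-- **counting**: the edges of a minimum spanning tree longer than `L` are at most as many as
suitable separated edges of any other broadcast tree. -/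
theorem count {V : Type} [Fintype V] {d : ℕ} {x : V → EuclideanSpace ℝ (Fin d)} {s : V}
    {p q : V → V} (h : IsMST x s p) (hq : Arb s q) (L : ℝ) :
    ∃ Y : Finset V, (Finset.univ.filter fun w => w ≠ s ∧ L < ‖x w - x (p w)‖).card ≤ Y.card ∧
      (∀ v ∈ Y, v ≠ s ∧ L < ‖x v - x (q v)‖) ∧
      ∀ v ∈ Y, ∀ v' ∈ Y, v ≠ v' → L < ‖x v - x v'‖ := by
  set W : Finset V := Finset.univ.filter fun w => w ≠ s ∧ L < ‖x w - x (p w)‖ with hW
  let anc : V → Finset V := fun v => W.filter fun z => An p z v
  have hmem : ∀ w, w ∈ W ↔ w ≠ s ∧ L < ‖x w - x (p w)‖ := fun w => by simp [hW]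
  have hsep : ∀ v v', anc v ≠ anc v' → L < ‖x v - x v'‖ := by
    intro v v' hne
    by_contra hcon
    apply hne
    ext z
    simp only [anc, Finset.mem_filter]
    constructor
    · rintro ⟨hz, hv⟩
      refine ⟨hz, ?_⟩
      by_contra hv'
      obtain ⟨h1, h2⟩ := (hmem z).1 hz
      exact hcon (h2.trans_le (exchange h h1 hv hv'))
    · rintro ⟨hz, hv⟩
      refine ⟨hz, ?_⟩
      by_contra hv'
      obtain ⟨h1, h2⟩ := (hmem z).1 hz
      have h3 := exchange h h1 hv hv'
      rw [norm_sub_rev] at h3
      rw [norm_sub_rev (x v')] at h3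
      rw [norm_sub_rev (x (p z))] at h3
      exact hcon (h2.trans_le h3)
  have hmin : ∀ w, ∃ v, w ∈ W → anc v = anc w ∧ v ≠ s ∧ anc (q v) ≠ anc w := by
    intro w
    by_cases hw : w ∈ W
    · obtain ⟨v, hv, hvm⟩ := Finset.exists_min_image
        (Finset.univ.filter fun v => anc v = anc w) (dep hq) ⟨w, by simp⟩
      rw [Finset.mem_filter] at hv
      have hvs : v ≠ s := by
        rintro rfl
        have h1 : w ∈ anc w := Finset.mem_filter.2 ⟨hw, An.refl p w⟩
        rw [← hv.2] at h1
        obtain ⟨k, hk⟩ := (Finset.mem_filter.1 h1).2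
        rw [iter_root h.1] at hk
        exact ((hmem w).1 hw).1 hk.symm
      refine ⟨v, fun _ => ⟨hv.2, hvs, fun he => ?_⟩⟩
      have h1 := hvm (q v) (Finset.mem_filter.2 ⟨Finset.mem_univ _, he⟩)
      have h2 := dep_lt hq hvs
      omega
    · exact ⟨w, fun h => absurd h hw⟩
  choose f hf using hmin
  have hinj : Set.InjOn f (W : Set V) := by
    intro w hw w' hw' he
    have h1 := (hf w hw).1
    have h2 := (hf w' hw').1
    rw [he, h2] at h1
    have h3 : w ∈ anc w := Finset.mem_filter.2 ⟨hw, An.refl p w⟩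
    have h4 : w' ∈ anc w' := Finset.mem_filter.2 ⟨hw', An.refl p w'⟩
    rw [← h1] at h3
    rw [h1] at h4
    exact An.antisymm h.1 (Finset.mem_filter.1 h3).2 (Finset.mem_filter.1 h4).2
  refine ⟨W.image f, (Finset.card_image_of_injOn hinj).ge, fun v hv => ?_, fun v hv v' hv' hne => ?_⟩
  · obtain ⟨w, hw, rfl⟩ := Finset.mem_image.1 hv
    obtain ⟨h1, h2, h3⟩ := hf w hw
    refine ⟨h2, hsep _ _ ?_⟩
    rw [h1]
    exact h3.symm
  · obtain ⟨w, hw, rfl⟩ := Finset.mem_image.1 hv
    obtain ⟨w', hw', rfl⟩ := Finset.mem_image.1 hv'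
    apply hsep
    rw [(hf w hw).1, (hf w' hw').1]
    intro he
    apply hne
    have h3 : w ∈ anc w := Finset.mem_filter.2 ⟨hw, An.refl p w⟩
    have h4 : w' ∈ anc w' := Finset.mem_filter.2 ⟨hw', An.refl p w'⟩
    rw [he] at h3
    rw [← he] at h4
    rw [An.antisymm h.1 (Finset.mem_filter.1 h3).2 (Finset.mem_filter.1 h4).2]

end Pool.Agent.Y968.MB
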