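import Pool.Agent.Y968.MB.Tree
import Pool.Agent.Y968.MB.Pack

/-!
# The upper bound
-/

set_option autoImplicit false

namespace Pool.Agent.Y968.MB

open MeasureTheory Set
open scoped ENNReal

/-- the density of `a^β` on the levels below `a` -/
noncomputable def FF (β a L : ℝ) : ℝ≥0∞ :=
  if L < a then ENNReal.ofReal (β * L ^ (β - 1)) else 0

theorem FF_meas (β a : ℝ) : Measurable (FF β a) := by
  unfold FF
  refine Measurable.ite measurableSet_Iio ?_ measurable_const
  fun_prop

theorem lint_FF {β a : ℝ} (hβ : 0 < β) (ha : 0 ≤ a) :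
    ∫⁻ L in Ioi (0 : ℝ), FF β a L = ENNReal.ofReal (a ^ β) := by
  have h1 : FF β a = (Iio a).indicator (fun L => ENNReal.ofReal (β * L ^ (β - 1))) := by
    ext L
    simp [FF, Set.indicator, Set.mem_Iio]
  have h2 : Iio a ∩ Ioi 0 = Ioo 0 a := by
    ext L
    simp [and_comm]
  have hint : IntegrableOn (fun L : ℝ => β * L ^ (β - 1)) (Ioo 0 a) := by
    have h3 := (intervalIntegral.intervalIntegrable_rpow' (a := 0) (b := a)
      (by linarith : -1 < β - 1)).const_mul β
    rw [intervalIntegrable_iff_integrableOn_Ioo_of_le ha] at h3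
    exact h3
  rw [h1, lintegral_indicator measurableSet_Iio, Measure.restrict_restrict measurableSet_Iio, h2,
    ← ofReal_integral_eq_lintegral_ofReal hint]
  · rw [← integral_Ioc_eq_integral_Ioo, ← intervalIntegral.integral_of_le ha,
      intervalIntegral.integral_const_mul, integral_rpow (Or.inl (by linarith))]
    congr 1
    rw [sub_add_cancel, Real.zero_rpow hβ.ne', sub_zero]
    field_simp
  · refine (ae_restrict_iff' measurableSet_Ioo).2 (Filter.Eventually.of_forall fun L hL => ?_)
    have := hL.1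
    positivity

open Classical in
/-- the radius of the star of `u` -/
noncomputable def rad {V : Type} [Fintype V] {d : ℕ} (x : V → EuclideanSpace ℝ (Fin d)) (s : V)
    (q : V → V) (u : V) : ℝ :=
  ⨆ v, if v ≠ s ∧ q v = u then ‖x u - x v‖ else 0

theorem le_rad {V : Type} [Fintype V] {d : ℕ} {x : V → EuclideanSpace ℝ (Fin d)} {s : V}
    {q : V → V} {v : V} (hv : v ≠ s) : ‖x v - x (q v)‖ ≤ rad x s q (q v) := by
  classical
  have h := le_ciSup (f := fun w => if w ≠ s ∧ q w = q v then ‖x (q v) - x w‖ else 0)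
    (Set.finite_range _).bddAbove v
  rw [if_pos ⟨hv, rfl⟩, norm_sub_rev] at h
  exact h

theorem rad_nonneg {V : Type} [Fintype V] {d : ℕ} (x : V → EuclideanSpace ℝ (Fin d)) (s : V)
    (q : V → V) (u : V) : 0 ≤ rad x s q u := by
  classical
  refine Real.iSup_nonneg fun v => ?_
  split_ifs <;> positivity

theorem rad_pow {V : Type} [Fintype V] {d : ℕ} (x : V → EuclideanSpace ℝ (Fin d)) {s : V}
    {q : V → V} {α : ℝ} (hα : 0 < α) : ∑ u, rad x s q u ^ α ≤ energy x α s q := by
  classical
  unfold energy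
  refine Finset.sum_le_sum fun u _ => ?_
  have : Nonempty V := ⟨s⟩
  obtain ⟨v, hv⟩ := exists_eq_ciSup_of_finite
    (f := fun w => if w ≠ s ∧ q w = u then ‖x u - x w‖ else 0)
  have h1 : rad x s q u = if v ≠ s ∧ q v = u then ‖x u - x v‖ else 0 := hv.symm
  have h2 := le_ciSup (f := fun w => if w ≠ s ∧ q w = u then ‖x u - x w‖ ^ α else 0)
    (Set.finite_range _).bddAbove v
  refine le_trans ?_ h2
  rw [h1]
  split_ifs
  · exact le_refl _
  · rw [Real.zero_rpow hα.ne']

theorem energy_le {V : Type} [Fintype V] {d : ℕ} (x : V → EuclideanSpace ℝ (Fin d)) {s : V}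
    {p : V → V} {α : ℝ} : energy x α s p ≤ ∑ v, ‖x v - x (p v)‖ ^ α := by
  classical
  unfold energy
  have : Nonempty V := ⟨s⟩
  calc ∑ u, (⨆ v, if v ≠ s ∧ p v = u then ‖x u - x v‖ ^ α else 0)
      ≤ ∑ u, ∑ v, if p v = u then ‖x u - x v‖ ^ α else 0 := by
        refine Finset.sum_le_sum fun u _ => ciSup_le fun v => ?_
        have h := Finset.single_le_sum (f := fun v => if p v = u then ‖x u - x v‖ ^ α else 0)
          (fun v _ => by positivity) (Finset.mem_univ v)
        refine le_trans ?_ h
        by_cases h1 : p v = u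
        · rw [if_pos h1]
          split_ifs
          · exact le_refl _
          · positivity
        · rw [if_neg h1, if_neg (fun h => h1 h.2)]
    _ = ∑ v, ∑ u, if p v = u then ‖x u - x v‖ ^ α else 0 := Finset.sum_comm
    _ = ∑ v, ‖x v - x (p v)‖ ^ α := by
        refine Finset.sum_congr rfl fun v _ => ?_
        rw [Finset.sum_ite_eq, if_pos (Finset.mem_univ _), norm_sub_rev]

theorem pow_split {r θ : ℝ} (hr : 0 ≤ r) (hθ : 0 ≤ θ) {d : ℕ} {α : ℝ} (hα : 0 < α) :
    (3 * r) ^ d * (θ * r) ^ (α - d) = 3 ^ d * θ ^ (α - d) * r ^ α := by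
  rw [mul_pow, Real.mul_rpow hθ hr]
  have h1 : r ^ d * r ^ (α - d) = r ^ α := by
    rcases hr.eq_or_lt with h | h
    · rw [← h]
      rcases Nat.eq_zero_or_pos d with h2 | h2
      · subst h2
        simp
      · rw [zero_pow (by omega), zero_mul, Real.zero_rpow hα.ne']
    · rw [← Real.rpow_natCast, ← Real.rpow_add h]
      congr 1
      ring
  rw [← h1]
  ring

/-- the constant of the upper bound -/
noncomputable def BB (d : ℕ) (θ α : ℝ) : ℝ :=
  kissing d + 3 ^ d * (α / (α - d)) * θ ^ (α - d)

theorem upper {V : Type} [Fintype V] {d : ℕ} {θ : ℝ} (hθ0 : 0 < θ)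
    (hθ : ∀ (k : ℕ) (y : Fin k → EuclideanSpace ℝ (Fin d)), (∀ i, θ < ‖y i‖ ∧ ‖y i‖ ≤ 1) →
      (∀ i j, i ≠ j → θ < ‖y i - y j‖) → k ≤ kissing d)
    {x : V → EuclideanSpace ℝ (Fin d)} {s : V} {p q : V → V} (h : IsMST x s p) (hq : Arb s q)
    {α : ℝ} (hα : (d : ℝ) < α) : energy x α s p ≤ BB d θ α * energy x α s q := by
  classical
  have hd0 : (0 : ℝ) ≤ d := Nat.cast_nonneg d
  have hα0 : 0 < α := hd0.trans_lt hα
  have hαd : 0 < α - d := by linarith
  have hB : 0 ≤ BB d θ α := by unfold BB; positivity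
  have hp := h.1.1
  -- pointwise inequality
  have hpt : ∀ L ∈ Ioi (0 : ℝ), ∑ w, FF α ‖x w - x (p w)‖ L ≤
      ∑ u, (ENNReal.ofReal (kissing d) * FF α (rad x s q u) L +
        ENNReal.ofReal ((3 * rad x s q u) ^ d * (α / (α - d))) *
          FF (α - d) (θ * rad x s q u) L) := by
    intro L hL
    have hL0 : (0 : ℝ) < L := hL
    obtain ⟨Y, hY1, hY2, hY3⟩ := count h hq L
    have h1 : ∑ w, FF α ‖x w - x (p w)‖ L =
        ENNReal.ofReal (((Finset.univ.filter fun w => w ≠ s ∧ L < ‖x w - x (p w)‖).card : ℝ) *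
          (α * L ^ (α - 1))) := by
      unfold FF
      rw [← Finset.sum_filter, Finset.sum_const, nsmul_eq_mul,
        ENNReal.ofReal_mul (Nat.cast_nonneg _), ENNReal.ofReal_natCast]
      congr 3
      ext w
      simp only [Finset.mem_filter, Finset.mem_univ, true_and]
      refine ⟨fun hw => ⟨?_, hw⟩, fun hw => hw.2⟩
      rintro rfl
      rw [hp, sub_self, norm_zero] at hw
      linarith
    have h2 : (Y.card : ℝ) = ∑ u, ((Y.filter fun v => q v = u).card : ℝ) := by
      rw [← Nat.cast_sum]
      congr 1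
      exact Finset.card_eq_sum_card_fiberwise fun v _ => Finset.mem_univ _
    have h3 : ∀ u, ((Y.filter fun v => q v = u).card : ℝ) ≤
        (if L < rad x s q u then (kissing d : ℝ) else 0) +
          (if L < θ * rad x s q u then (3 * rad x s q u / L) ^ d else 0) := by
      intro u
      refine star_bound hθ _ x u hL0 (rad_nonneg x s q u) (fun v hv => ?_) fun v hv v' hv' hne => ?_
      · obtain ⟨hv1, rfl⟩ := Finset.mem_filter.1 hv
        exact ⟨(hY2 v hv1).2, le_rad (hY2 v hv1).1⟩
      · exact hY3 v (Finset.mem_filter.1 hv).1 v' (Finset.mem_filter.1 hv').1 hne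
    have hf : 0 ≤ α * L ^ (α - 1) := by positivity
    have h4 : (((Finset.univ.filter fun w => w ≠ s ∧ L < ‖x w - x (p w)‖).card : ℝ) *
          (α * L ^ (α - 1))) ≤ ∑ u, ((if L < rad x s q u then (kissing d : ℝ) else 0) +
          (if L < θ * rad x s q u then (3 * rad x s q u / L) ^ d else 0)) * (α * L ^ (α - 1)) := by
      rw [← Finset.sum_mul]
      refine mul_le_mul_of_nonneg_right ?_ hf
      calc ((Finset.univ.filter fun w => w ≠ s ∧ L < ‖x w - x (p w)‖).card : ℝ) ≤ Y.card := by
            exact_mod_cast hY1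
        _ ≤ _ := by
            rw [h2]
            exact Finset.sum_le_sum fun u _ => h3 u
    rw [h1]
    refine (ENNReal.ofReal_le_ofReal h4).trans ?_
    rw [ENNReal.ofReal_sum_of_nonneg]
    · refine Finset.sum_le_sum fun u _ => ?_
      have hr := rad_nonneg x s q u
      rw [add_mul]
      refine (ENNReal.ofReal_add_le).trans (add_le_add ?_ ?_)
      · unfold FF
        split_ifs
        · rw [ENNReal.ofReal_mul (Nat.cast_nonneg _)]
        · simp
      · unfold FF
        split_ifs
        · rw [← ENNReal.ofReal_mul (by positivity)]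
          apply ENNReal.ofReal_le_ofReal
          apply le_of_eq
          have h5 : L ^ (α - 1) = L ^ d * L ^ (α - d - 1) := by
            rw [← Real.rpow_natCast, ← Real.rpow_add hL0]
            congr 1
            ring
          rw [h5, div_pow]
          field_simp
        · simp
    · intro u _
      have hr := rad_nonneg x s q u
      refine mul_nonneg (add_nonneg ?_ ?_) hf <;> split_ifs <;> positivity
  have h5 : ENNReal.ofReal (∑ v, ‖x v - x (p v)‖ ^ α) ≤
      ENNReal.ofReal (∑ u, BB d θ α * rad x s q u ^ α) := by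
    rw [ENNReal.ofReal_sum_of_nonneg fun v _ => by positivity]
    calc ∑ v, ENNReal.ofReal (‖x v - x (p v)‖ ^ α)
        = ∑ v, ∫⁻ L in Ioi (0 : ℝ), FF α ‖x v - x (p v)‖ L :=
          Finset.sum_congr rfl fun v _ => (lint_FF hα0 (norm_nonneg _)).symm
      _ = ∫⁻ L in Ioi (0 : ℝ), ∑ v, FF α ‖x v - x (p v)‖ L :=
          (lintegral_finsetSum _ fun v _ => FF_meas _ _).symm
      _ ≤ ∫⁻ L in Ioi (0 : ℝ), ∑ u, (ENNReal.ofReal (kissing d) * FF α (rad x s q u) L +
        ENNReal.ofReal ((3 * rad x s q u) ^ d * (α / (α - d))) *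
          FF (α - d) (θ * rad x s q u) L) := setLIntegral_mono' measurableSet_Ioi hpt
      _ = ∑ u, ENNReal.ofReal (BB d θ α * rad x s q u ^ α) := by
          rw [lintegral_finsetSum]
          · refine Finset.sum_congr rfl fun u _ => ?_
            have hr := rad_nonneg x s q u
            rw [lintegral_add_left ((FF_meas _ _).const_mul _), lintegral_const_mul _ (FF_meas _ _),
              lintegral_const_mul _ (FF_meas _ _), lint_FF hα0 hr, lint_FF hαd (by positivity),
              ← ENNReal.ofReal_mul (by positivity), ← ENNReal.ofReal_mul (by positivity),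
              ← ENNReal.ofReal_add (by positivity) (by positivity)]
            congr 1
            have h6 := pow_split (d := d) hr hθ0.le hα0
            unfold BB
            calc (kissing d : ℝ) * rad x s q u ^ α + (3 * rad x s q u) ^ d * (α / (α - d)) *
                  (θ * rad x s q u) ^ (α - d)
                = kissing d * rad x s q u ^ α + (α / (α - d)) * ((3 * rad x s q u) ^ d *
                  (θ * rad x s q u) ^ (α - d)) := by ring
              _ = _ := by rw [h6]; ring
          · intro u _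
            exact ((FF_meas _ _).const_mul _).add ((FF_meas _ _).const_mul _)
      _ = ENNReal.ofReal (∑ u, BB d θ α * rad x s q u ^ α) := by
          rw [ENNReal.ofReal_sum_of_nonneg]
          intro u _
          have hr := rad_nonneg x s q u
          positivity
  have h7 : ∑ v, ‖x v - x (p v)‖ ^ α ≤ ∑ u, BB d θ α * rad x s q u ^ α := by
    rw [ENNReal.ofReal_le_ofReal_iff] at h5
    · exact h5
    · refine Finset.sum_nonneg fun u _ => ?_
      have hr := rad_nonneg x s q u
      positivity
  calc energy x α s p ≤ ∑ v, ‖x v - x (p v)‖ ^ α := energy_le x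
    _ ≤ ∑ u, BB d θ α * rad x s q u ^ α := h7
    _ = BB d θ α * ∑ u, rad x s q u ^ α := (Finset.mul_sum _ _ _).symm
    _ ≤ BB d θ α * energy x α s q := mul_le_mul_of_nonneg_left (rad_pow x hα0) hB

end Pool.Agent.Y968.MB
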